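import Pool.Agent.Lib.MP_c3a607_gt.Curve

set_option autoImplicit false

open scoped ContDiff Matrix
open MeasureTheory

namespace Pool.Agent.Lib.MP_c3a607_gt

private theorem anti_cs {a b c g1 g2 g3 : ℝ} :
    (a * g1 + b * g2 + c * g3) ^ 2 ≤ (a ^ 2 + b ^ 2 + c ^ 2) * (g1 ^ 2 + g2 ^ 2 + g3 ^ 2) := by
  nlinarith [sq_nonneg (a * g2 - b * g1), sq_nonneg (a * g3 - c * g1), sq_nonneg (b * g3 - c * g2)]

private theorem anti_alg {A B A0 B0 cX sX cZ sZ th X' Z' : ℝ} (h : A ^ 2 + B ^ 2 = 1)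
    (h0 : A0 ^ 2 + B0 ^ 2 = 1) (hX : sX ^ 2 + cX ^ 2 = 1) (hZ : sZ ^ 2 + cZ ^ 2 = 1) :
    (-B * th * A0 * cX + A * A0 * (-sX * X') + (A * th * B0 * cZ + B * B0 * (-sZ * Z'))) ^ 2 ≤
      (th ^ 2 + A ^ 2 * X' ^ 2 + B ^ 2 * Z' ^ 2) * (1 - (A * A0 * cX + B * B0 * cZ) ^ 2) := by
  have h1 : 1 - (A * A0 * cX + B * B0 * cZ) ^ 2 =
      (A * B0 * cZ - B * A0 * cX) ^ 2 + (-(A0 * sX)) ^ 2 + (-(B0 * sZ)) ^ 2 := by
    have e1 : (A * A0 * cX + B * B0 * cZ) ^ 2 + (A * B0 * cZ - B * A0 * cX) ^ 2 =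
        (A ^ 2 + B ^ 2) * (A0 ^ 2 * cX ^ 2 + B0 ^ 2 * cZ ^ 2) := by ring
    rw [h, one_mul] at e1
    have e2 : A0 ^ 2 * (sX ^ 2 + cX ^ 2) + B0 ^ 2 * (sZ ^ 2 + cZ ^ 2) = 1 := by
      rw [hX, hZ, mul_one, mul_one, h0]
    linarith
  have h2 := @anti_cs th (A * X') (B * Z') (A * B0 * cZ - B * A0 * cX) (-(A0 * sX)) (-(B0 * sZ))
  rw [h1]
  calc _ = (th * (A * B0 * cZ - B * A0 * cX) + A * X' * -(A0 * sX) + B * Z' * -(B0 * sZ)) ^ 2 := by
        ring
    _ ≤ _ := h2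
    _ = _ := by ring

private theorem sn_bd (t : ℝ) : 1 ≤ 2 + sn t ∧ 1 ≤ 2 - sn t := by
  have h1 := Real.neg_one_le_sin (2 * Real.pi * t)
  have h2 := Real.sin_le_one (2 * Real.pi * t)
  rw [sn]
  constructor <;> linarith

private theorem hasDerivAt_sn (t : ℝ) : HasDerivAt sn (2 * Real.pi * cs t) t := by
  have h1 : HasDerivAt (fun t : ℝ => 2 * Real.pi * t) (2 * Real.pi) t := by
    simpa using (hasDerivAt_id t).const_mul (2 * Real.pi)
  have h2 := h1.sin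
  have h3 : 2 * Real.pi * cs t = Real.cos (2 * Real.pi * t) * (2 * Real.pi) := by
    rw [cs]
    ring
  rw [h3]
  exact h2

private theorem cos_odd {k : ℤ} (hk : Odd k) (a : ℝ) : Real.cos (2 * Real.pi * (a + k / 2) -
    2 * Real.pi * a) = -1 := by
  obtain ⟨m, rfl⟩ := hk
  have : 2 * Real.pi * (a + ((2 * m + 1 : ℤ) : ℝ) / 2) - 2 * Real.pi * a =
      Real.pi + m * (2 * Real.pi) := by
    push_cast
    ring
  rw [this, Real.cos_add_int_mul_two_pi, Real.cos_pi]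

/-- `n 0 = 0`, `n 1 + n 2` odd. With `c = s/2 = cos 2θ` (`cos θ = √(2+s)/2`, `sin θ = √(2-s)/2`) the map
`w = (cos θ e^{2πix}, sin θ e^{2πiz})` to `S³` satisfies `|w'| ≤ π spd` (this uses
`cos² ≤ al² (4 - s²)`) and `w(1) = - w(0)`. Use `len_ge` for
`f t = arcsin (λ ⟨w t, w 0⟩) / π`, `λ < 1`, and let `λ → 1`. -/
theorem anti {D : Dat} {γ : ℝ → Fin 3 → ℝ} (hγ : ContDiff ℝ 1 γ) {n : Fin 3 → ℤ}
    (hn : ∀ i, γ 1 i = γ 0 i + n i) (h0 : n 0 = 0) (ho : Odd (n 1 + n 2))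
    (hal : ∀ t, cs t ^ 2 ≤ D.al t ^ 2 * (4 - sn t ^ 2)) :
    1 ≤ len (ex D) γ := by
  have hpi := Real.pi_pos
  -- the two radii
  obtain ⟨A, hAdef⟩ : ∃ A : ℝ → ℝ, A = fun t => Real.sqrt (2 + sn (γ t 0)) / 2 := ⟨_, rfl⟩
  obtain ⟨B, hBdef⟩ : ∃ B : ℝ → ℝ, B = fun t => Real.sqrt (2 - sn (γ t 0)) / 2 := ⟨_, rfl⟩
  obtain ⟨X, hXdef⟩ : ∃ X : ℝ → ℝ, X = fun t => 2 * Real.pi * ((γ t 0 + γ t 1 + γ t 2) / 2) :=
    ⟨_, rfl⟩
  obtain ⟨Z, hZdef⟩ : ∃ Z : ℝ → ℝ, Z = fun t => 2 * Real.pi * ((γ t 1 - γ t 2) / 2) := ⟨_, rfl⟩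
  obtain ⟨th, hth⟩ : ∃ th : ℝ → ℝ, th = fun t =>
      -(Real.pi * cs (γ t 0) * deriv γ t 0 / Real.sqrt (4 - sn (γ t 0) ^ 2)) := ⟨_, rfl⟩
  have hsq : ∀ t, Real.sqrt (4 - sn (γ t 0) ^ 2) =
      Real.sqrt (2 + sn (γ t 0)) * Real.sqrt (2 - sn (γ t 0)) := by
    intro t
    rw [← Real.sqrt_mul (by linarith [(sn_bd (γ t 0)).1])]
    congr 1
    ring
  have hA2 : ∀ t, A t ^ 2 = (2 + sn (γ t 0)) / 4 := by
    intro t
    rw [hAdef]
    simp only
    rw [div_pow, Real.sq_sqrt (by linarith [(sn_bd (γ t 0)).1])]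
    norm_num
  have hB2 : ∀ t, B t ^ 2 = (2 - sn (γ t 0)) / 4 := by
    intro t
    rw [hBdef]
    simp only
    rw [div_pow, Real.sq_sqrt (by linarith [(sn_bd (γ t 0)).2])]
    norm_num
  have hAB : ∀ t, A t ^ 2 + B t ^ 2 = 1 := by
    intro t
    rw [hA2, hB2]
    ring
  have hsn : ∀ t, HasDerivAt (fun t => sn (γ t 0)) (2 * Real.pi * cs (γ t 0) * deriv γ t 0) t :=
    fun t => HasDerivAt.comp (h₂ := sn) t (hasDerivAt_sn (γ t 0)) (hasDerivAt_coord hγ 0 t)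
  have hA' : ∀ t, HasDerivAt A (-B t * th t) t := by
    intro t
    have hp := (sn_bd (γ t 0)).1
    have hq := (sn_bd (γ t 0)).2
    have h1 := (((hsn t).const_add 2).sqrt (by linarith)).div_const 2
    rw [hAdef]
    refine h1.congr_deriv ?_
    rw [hth, hBdef]
    simp only
    rw [hsq]
    have h2 : 0 < Real.sqrt (2 + sn (γ t 0)) := Real.sqrt_pos.2 (by linarith)
    have h3 : 0 < Real.sqrt (2 - sn (γ t 0)) := Real.sqrt_pos.2 (by linarith)
    field_simp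
  have hB' : ∀ t, HasDerivAt B (A t * th t) t := by
    intro t
    have hp := (sn_bd (γ t 0)).1
    have hq := (sn_bd (γ t 0)).2
    have h1 := (((hsn t).const_sub 2).sqrt (by linarith)).div_const 2
    rw [hBdef]
    refine h1.congr_deriv ?_
    rw [hth, hAdef]
    simp only
    rw [hsq]
    have h2 : 0 < Real.sqrt (2 + sn (γ t 0)) := Real.sqrt_pos.2 (by linarith)
    have h3 : 0 < Real.sqrt (2 - sn (γ t 0)) := Real.sqrt_pos.2 (by linarith)
    field_simp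
  have hX' : ∀ t, HasDerivAt X (2 * Real.pi * ((deriv γ t 0 + deriv γ t 1 + deriv γ t 2) / 2)) t := by
    intro t
    rw [hXdef]
    exact ((((hasDerivAt_coord hγ 0 t).add (hasDerivAt_coord hγ 1 t)).add
      (hasDerivAt_coord hγ 2 t)).div_const 2).const_mul (2 * Real.pi)
  have hZ' : ∀ t, HasDerivAt Z (2 * Real.pi * ((deriv γ t 1 - deriv γ t 2) / 2)) t := by
    intro t
    rw [hZdef]
    exact (((hasDerivAt_coord hγ 1 t).sub (hasDerivAt_coord hγ 2 t)).div_const 2).const_mul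
      (2 * Real.pi)
  -- the inner product
  obtain ⟨F, hF⟩ : ∃ F : ℝ → ℝ, F = fun t =>
      A t * A 0 * Real.cos (X t - X 0) + B t * B 0 * Real.cos (Z t - Z 0) := ⟨_, rfl⟩
  obtain ⟨F', hF'⟩ : ∃ F' : ℝ → ℝ, F' = fun t =>
      -B t * th t * A 0 * Real.cos (X t - X 0) + A t * A 0 * (-Real.sin (X t - X 0) *
        (2 * Real.pi * ((deriv γ t 0 + deriv γ t 1 + deriv γ t 2) / 2))) +
      (A t * th t * B 0 * Real.cos (Z t - Z 0) + B t * B 0 * (-Real.sin (Z t - Z 0) *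
        (2 * Real.pi * ((deriv γ t 1 - deriv γ t 2) / 2)))) := ⟨_, rfl⟩
  have hFd : ∀ t, HasDerivAt F (F' t) t := by
    intro t
    rw [hF, hF']
    exact (((hA' t).mul_const (A 0)).mul ((hX' t).sub_const (X 0)).cos).add
      (((hB' t).mul_const (B 0)).mul ((hZ' t).sub_const (Z 0)).cos)
  have hFab : ∀ t, F t ^ 2 ≤ 1 := by
    intro t
    have a1 := hAB t
    have a2 := hAB 0
    have a3 := Real.cos_sq_le_one (X t - X 0)
    have a4 := Real.cos_sq_le_one (Z t - Z 0)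
    have e2 : F t ^ 2 ≤ (A t ^ 2 + B t ^ 2) *
        (A 0 ^ 2 * Real.cos (X t - X 0) ^ 2 + B 0 ^ 2 * Real.cos (Z t - Z 0) ^ 2) := by
      rw [hF]
      nlinarith [sq_nonneg (A t * B 0 * Real.cos (Z t - Z 0) - B t * A 0 * Real.cos (X t - X 0))]
    rw [a1, one_mul] at e2
    refine e2.trans ?_
    nlinarith [mul_le_mul_of_nonneg_left a3 (sq_nonneg (A 0)),
      mul_le_mul_of_nonneg_left a4 (sq_nonneg (B 0))]
  have hF2 : ∀ t, F' t ^ 2 ≤ (Real.pi * spd D γ t) ^ 2 * (1 - F t ^ 2) := by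
    intro t
    have h1 := @anti_alg (A t) (B t) (A 0) (B 0) (Real.cos (X t - X 0)) (Real.sin (X t - X 0))
      (Real.cos (Z t - Z 0)) (Real.sin (Z t - Z 0)) (th t)
      (2 * Real.pi * ((deriv γ t 0 + deriv γ t 1 + deriv γ t 2) / 2))
      (2 * Real.pi * ((deriv γ t 1 - deriv γ t 2) / 2)) (hAB t) (hAB 0)
      (Real.sin_sq_add_cos_sq _) (Real.sin_sq_add_cos_sq _)
    have h3 : th t ^ 2 + A t ^ 2 * (2 * Real.pi * ((deriv γ t 0 + deriv γ t 1 + deriv γ t 2) / 2)) ^ 2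
        + B t ^ 2 * (2 * Real.pi * ((deriv γ t 1 - deriv γ t 2) / 2)) ^ 2 ≤
        (Real.pi * spd D γ t) ^ 2 := by
      have hp := (sn_bd (γ t 0)).1
      have hq := (sn_bd (γ t 0)).2
      have h4 : 0 < 4 - sn (γ t 0) ^ 2 := by nlinarith
      have h5 : th t ^ 2 ≤ Real.pi ^ 2 * (D.al (γ t 0) ^ 2 * (deriv γ t 0) ^ 2) := by
        rw [hth]
        simp only
        rw [neg_sq, div_pow, Real.sq_sqrt h4.le, div_le_iff₀ h4]
        have h6 := mul_le_mul_of_nonneg_left (hal (γ t 0))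
          (mul_nonneg (sq_nonneg Real.pi) (sq_nonneg (deriv γ t 0)))
        nlinarith [h6]
      have h7 : 0 ≤ D.al (γ t 0) ^ 2 * deriv γ t 0 ^ 2 +
          (2 + sn (γ t 0)) * ((deriv γ t 0 + deriv γ t 1 + deriv γ t 2) / 2) ^ 2 +
          (2 - sn (γ t 0)) * ((deriv γ t 1 - deriv γ t 2) / 2) ^ 2 := by
        have a1 : 0 ≤ 2 + sn (γ t 0) := by linarith
        have a2 : 0 ≤ 2 - sn (γ t 0) := by linarith
        positivity
      rw [mul_pow Real.pi (spd D γ t) 2, spd, Real.sq_sqrt h7, hA2, hB2]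
      nlinarith [h5]
    have h2 : 0 ≤ 1 - F t ^ 2 := by linarith [hFab t]
    have h8 := mul_le_mul_of_nonneg_right h3 h2
    refine le_trans ?_ h8
    rw [hF, hF']
    exact h1
  have hF0 : F 0 = 1 := by
    rw [hF]
    simp only [sub_self, Real.cos_zero, mul_one]
    have := hAB 0
    nlinarith
  have hF1 : F 1 = -1 := by
    have e0 : γ 1 0 = γ 0 0 := by rw [hn 0, h0]; simp
    have eA : A 1 = A 0 := by rw [hAdef]; simp only; rw [e0]
    have eB : B 1 = B 0 := by rw [hBdef]; simp only; rw [e0]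
    have eX : Real.cos (X 1 - X 0) = -1 := by
      rw [hXdef]
      have := cos_odd ho ((γ 0 0 + γ 0 1 + γ 0 2) / 2)
      rw [← this]
      congr 1
      simp only
      rw [hn 0, hn 1, hn 2, h0]
      push_cast
      ring
    have eZ : Real.cos (Z 1 - Z 0) = -1 := by
      rw [hZdef]
      have ho' : Odd (n 1 - n 2) := by
        rw [Int.odd_iff] at ho ⊢
        omega
      have := cos_odd ho' ((γ 0 1 - γ 0 2) / 2)
      rw [← this]
      congr 1
      simp only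
      rw [hn 1, hn 2]
      push_cast
      ring
    rw [hF]
    simp only
    rw [eA, eB, eX, eZ]
    have := hAB 0
    nlinarith
  -- the calibration
  have key : ∀ y : ℝ, 0 < y → y < 1 → y ≤ len (ex D) γ := by
    intro y hy0 hy1
    obtain ⟨l, hl⟩ : ∃ l : ℝ, l = Real.sin (Real.pi / 2 * y) := ⟨_, rfl⟩
    have hyp : Real.pi / 2 * y < Real.pi / 2 := by nlinarith
    have hyp0 : 0 < Real.pi / 2 * y := by positivity
    have hl0 : 0 < l := by
      rw [hl]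
      exact Real.sin_pos_of_pos_of_lt_pi hyp0 (by linarith)
    have hl1 : l < 1 := by
      rw [hl, ← Real.sin_pi_div_two]
      exact Real.sin_lt_sin_of_lt_of_le_pi_div_two (by linarith) le_rfl hyp
    have hla : Real.arcsin l = Real.pi / 2 * y := by
      rw [hl, Real.arcsin_sin (by linarith) hyp.le]
    have hlF : ∀ t, (l * F t) ^ 2 < 1 := by
      intro t
      have := hFab t
      rw [mul_pow]
      nlinarith [sq_nonneg (F t)]
    have hlF1 : ∀ t, l * F t < 1 := fun t => by nlinarith [hlF t]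
    have hlF2 : ∀ t, -1 < l * F t := fun t => by nlinarith [hlF t]
    have hd : ∀ t, HasDerivAt (fun t => Real.arcsin (l * F t) / Real.pi)
        (1 / Real.sqrt (1 - (l * F t) ^ 2) * (l * F' t) / Real.pi) t := by
      intro t
      have h1 := Real.hasDerivAt_arcsin (hlF2 t).ne' (hlF1 t).ne
      exact (h1.comp t ((hFd t).const_mul l)).div_const Real.pi
    have hb : ∀ t, |1 / Real.sqrt (1 - (l * F t) ^ 2) * (l * F' t) / Real.pi| ≤ spd D γ t := by
      intro t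
      have h1 : 0 < 1 - (l * F t) ^ 2 := by linarith [hlF t]
      have h2 : 0 ≤ spd D γ t := Real.sqrt_nonneg _
      refine abs_le_of_sq_le_sq ?_ h2
      rw [div_pow, mul_pow, div_pow, one_pow, Real.sq_sqrt h1.le, div_le_iff₀ (by positivity),
        div_mul_eq_mul_div, one_mul, div_le_iff₀ h1, mul_pow]
      have h3 := hF2 t
      have h5 : l ^ 2 ≤ 1 := by nlinarith
      have h4 : 1 - F t ^ 2 ≤ 1 - (l * F t) ^ 2 := by
        rw [mul_pow]
        nlinarith [mul_le_mul_of_nonneg_right h5 (sq_nonneg (F t))]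
      calc l ^ 2 * F' t ^ 2 ≤ 1 * F' t ^ 2 := mul_le_mul_of_nonneg_right h5 (sq_nonneg _)
        _ ≤ (Real.pi * spd D γ t) ^ 2 * (1 - F t ^ 2) := by rw [one_mul]; exact h3
        _ ≤ (Real.pi * spd D γ t) ^ 2 * (1 - (l * F t) ^ 2) :=
          mul_le_mul_of_nonneg_left h4 (sq_nonneg _)
        _ = _ := by ring
    have h1 := len_ge hγ hd hb
    rw [hF0, hF1, mul_one, mul_neg, mul_one, Real.arcsin_neg, hla] at h1
    have h2 : |-(Real.pi / 2 * y) / Real.pi - Real.pi / 2 * y / Real.pi| = y := by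
      have : -(Real.pi / 2 * y) / Real.pi - Real.pi / 2 * y / Real.pi = -y := by
        field_simp
        ring
      rw [this, abs_neg, abs_of_pos hy0]
    rw [h2] at h1
    exact h1
  refine le_of_forall_lt_imp_le_of_dense fun y hy => ?_
  rcases lt_or_ge 0 y with h | h
  · exact key y h hy
  · exact le_trans (by linarith) (key (1 / 2) (by norm_num) (by norm_num))

end Pool.Agent.Lib.MP_c3a607_gt
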