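import Pool.Agent.Lib.MP_c3a607_gt.Curve

set_option autoImplicit false

open scoped ContDiff Matrix
open MeasureTheory

namespace Pool.Agent.Lib.MP_c3a607_gt

private theorem sn_bd (t : ℝ) : -1 ≤ sn t ∧ sn t ≤ 1 :=
  ⟨Real.neg_one_le_sin _, Real.sin_le_one _⟩

private theorem sn_cont : Continuous sn := by
  unfold sn
  exact Real.continuous_sin.comp (continuous_const.mul continuous_id)

private theorem sn_per (t : ℝ) : sn (t + 1) = sn t := by
  unfold sn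
  rw [mul_add, mul_one]
  exact Real.sin_add_two_pi _

/-- `len_ge` for a linear function plus a primitive of a periodic function of the first
coordinate. -/
private theorem gen {D : Dat} {γ : ℝ → Fin 3 → ℝ} (hγ : ContDiff ℝ 1 γ) {n : Fin 3 → ℤ}
    (hn : ∀ i, γ 1 i = γ 0 i + n i) {h : ℝ → ℝ} (hc : Continuous h) (hper : ∀ t, h (t + 1) = h t)
    (a b c : ℝ) (hb : ∀ t, |a * deriv γ t 0 + b * deriv γ t 1 + c * deriv γ t 2 +
      h (γ t 0) * deriv γ t 0| ≤ spd D γ t) :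
    |a * n 0 + b * n 1 + c * n 2 + n 0 * ∫ t in (0 : ℝ)..1, h t| ≤ len (ex D) γ := by
  have hH : ∀ y, HasDerivAt (fun y => ∫ s in (0 : ℝ)..y, h s) (h y) y := fun y =>
    (hc.integral_hasStrictDerivAt 0 y).hasDerivAt
  have hf : ∀ t, HasDerivAt (fun t => a * γ t 0 + b * γ t 1 + c * γ t 2 +
      ∫ s in (0 : ℝ)..(γ t 0), h s) (a * deriv γ t 0 + b * deriv γ t 1 + c * deriv γ t 2 +
      h (γ t 0) * deriv γ t 0) t := by
    intro t
    have h0 := hasDerivAt_coord hγ 0 t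
    have h1 := hasDerivAt_coord hγ 1 t
    have h2 := hasDerivAt_coord hγ 2 t
    have h3 : HasDerivAt (fun t => ∫ s in (0 : ℝ)..(γ t 0), h s) (h (γ t 0) * deriv γ t 0) t :=
      HasDerivAt.comp (h₂ := fun y => ∫ s in (0 : ℝ)..y, h s) (h := fun t => γ t 0) t
        (hH (γ t 0)) h0
    exact (((h0.const_mul a).add (h1.const_mul b)).add (h2.const_mul c)).add h3
  have h1 := len_ge (D := D) hγ hf hb
  have hp : Function.Periodic h 1 := hper
  have hI : (∫ s in (0 : ℝ)..(γ 1 0), h s) - ∫ s in (0 : ℝ)..(γ 0 0), h s =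
      n 0 * ∫ t in (0 : ℝ)..1, h t := by
    rw [intervalIntegral.integral_interval_sub_left (hc.intervalIntegrable _ _)
      (hc.intervalIntegrable _ _), hn 0]
    have h2 := hp.intervalIntegral_add_zsmul_eq (n 0) (γ 0 0)
      (fun t₁ t₂ => hc.intervalIntegrable _ _)
    have h3 := hp.intervalIntegral_add_eq (γ 0 0) 0
    rw [h3, zero_add] at h2
    simpa using h2
  have h4 : a * γ 1 0 + b * γ 1 1 + c * γ 1 2 + (∫ s in (0 : ℝ)..(γ 1 0), h s) -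
      (a * γ 0 0 + b * γ 0 1 + c * γ 0 2 + ∫ s in (0 : ℝ)..(γ 0 0), h s) =
      a * n 0 + b * n 1 + c * n 2 + n 0 * ∫ t in (0 : ℝ)..1, h t := by
    rw [← hI, hn 1, hn 2]
    have := hn 0
    linear_combination a * this
  rw [← h4]
  exact h1

private theorem one_le_abs_of_odd {m : ℤ} (h : Odd m) : ∃ e : ℝ, (e = 1 ∨ e = -1) ∧
    1 ≤ e * (m : ℝ) := by
  obtain ⟨k, hk⟩ := h
  rcases le_or_gt 0 m with h0 | h0
  · refine ⟨1, Or.inl rfl, ?_⟩
    have : (1 : ℤ) ≤ m := by omega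
    rw [one_mul]
    exact_mod_cast this
  · refine ⟨-1, Or.inr rfl, ?_⟩
    have : (1 : ℤ) ≤ -m := by omega
    rw [neg_one_mul]
    exact_mod_cast this

/-- Cauchy-Schwarz for the two calibrations. -/
private theorem cs_ineq {al p e e' s u v w : ℝ} (hal : 0 < al) (hs : 1 ≤ s) (hp0 : 0 ≤ p)
    (hp1 : p < 1) (he : e ^ 2 = 1) (he' : e' ^ 2 = 1) (hw : 0 ≤ w) :
    |e * p * v + e' * (al * Real.sqrt (1 - p ^ 2 / s)) * u| ≤
      Real.sqrt (al ^ 2 * u ^ 2 + s * v ^ 2 + w) := by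
  have hs0 : 0 < s := by linarith
  have h1 : p ^ 2 / s ≤ 1 := by
    rw [div_le_one hs0]
    nlinarith
  set r := Real.sqrt (1 - p ^ 2 / s) with hr
  have hr2 : r ^ 2 = 1 - p ^ 2 / s := Real.sq_sqrt (by linarith)
  have hr3 : s * (1 - r ^ 2) = p ^ 2 := by
    rw [hr2]
    field_simp
    ring
  refine Real.abs_le_sqrt ?_
  have key : (al ^ 2 * u ^ 2 + s * v ^ 2) - (e * p * v + e' * (al * r) * u) ^ 2 =
      (al ^ 2 * u ^ 2 * (1 - r ^ 2) + s * v ^ 2 * r ^ 2 - 2 * (e * e') * p * r * v * (al * u)) := by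
    linear_combination v ^ 2 * hr3 - p ^ 2 * v ^ 2 * he - (al * r) ^ 2 * u ^ 2 * he'
  have h2 : 0 ≤ s * (al ^ 2 * u ^ 2 * (1 - r ^ 2) + s * v ^ 2 * r ^ 2 -
      2 * (e * e') * p * r * v * (al * u)) := by
    have h3 : s * (al ^ 2 * u ^ 2 * (1 - r ^ 2) + s * v ^ 2 * r ^ 2 -
      2 * (e * e') * p * r * v * (al * u)) = (p * (al * u) - e * e' * s * r * v) ^ 2 := by
      linear_combination (al ^ 2 * u ^ 2) * hr3 - (s * r * v) ^ 2 * e' ^ 2 * he -
        (s * r * v) ^ 2 * he'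
    rw [h3]
    exact sq_nonneg _
  have h4 := nonneg_of_mul_nonneg_right h2 hs0
  linarith

/-- Curves that go around once in the first direction, `n 0 + n 1 + n 2` odd. Use `len_ge` with
`f t = p' x + H (γ t 0)`, `x = (γ 0 + γ 1 + γ 2)/2`, `p' = ± p`, `H' = ± al √(1 - p²/(2 + s))`. -/
theorem cross_p {D : Dat} {γ : ℝ → Fin 3 → ℝ} (hγ : ContDiff ℝ 1 γ) {n : Fin 3 → ℤ}
    (hn : ∀ i, γ 1 i = γ 0 i + n i) (h0 : n 0 = 1 ∨ n 0 = -1) (ho : Odd (n 0 + n 1 + n 2))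
    {p : ℝ} (hp0 : 0 ≤ p) (hp1 : p < 1)
    (hI : 1 ≤ p / 2 + ∫ t in (0 : ℝ)..1, D.al t * Real.sqrt (1 - p ^ 2 / (2 + sn t))) :
    1 ≤ len (ex D) γ := by
  obtain ⟨e, he, hem⟩ := one_le_abs_of_odd ho
  have he2 : e ^ 2 = 1 := by rcases he with rfl | rfl <;> norm_num
  have hn2 : ((n 0 : ℤ) : ℝ) ^ 2 = 1 := by rcases h0 with h | h <;> rw [h] <;> norm_num
  have hbd := sn_bd
  have hc : Continuous fun t => D.al t * Real.sqrt (1 - p ^ 2 / (2 + sn t)) := by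
    refine D.smooth.continuous.mul (Real.continuous_sqrt.comp (continuous_const.sub
      (continuous_const.div (continuous_const.add sn_cont) fun t => ?_)))
    linarith [(hbd t).1]
  have hper : ∀ t, D.al (t + 1) * Real.sqrt (1 - p ^ 2 / (2 + sn (t + 1))) =
      D.al t * Real.sqrt (1 - p ^ 2 / (2 + sn t)) := by
    intro t
    rw [D.per, sn_per]
  have h1 := gen (D := D) hγ hn (h := fun t => (n 0 : ℝ) * (D.al t *
    Real.sqrt (1 - p ^ 2 / (2 + sn t)))) (continuous_const.mul hc)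
    (fun t => by simp only [hper]) (e * p / 2) (e * p / 2) (e * p / 2) (by
      intro t
      have h2 := cs_ineq (al := D.al (γ t 0)) (p := p) (e := e) (e' := n 0) (s := 2 + sn (γ t 0))
        (u := deriv γ t 0) (v := (deriv γ t 0 + deriv γ t 1 + deriv γ t 2) / 2)
        (w := (2 - sn (γ t 0)) * ((deriv γ t 1 - deriv γ t 2) / 2) ^ 2) (D.pos _)
        (by linarith [(hbd (γ t 0)).1]) hp0 hp1 he2 hn2
        (mul_nonneg (by linarith [(hbd (γ t 0)).2]) (sq_nonneg _))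
      have h3 : e * p / 2 * deriv γ t 0 + e * p / 2 * deriv γ t 1 + e * p / 2 * deriv γ t 2 +
          (n 0 : ℝ) * (D.al (γ t 0) * Real.sqrt (1 - p ^ 2 / (2 + sn (γ t 0)))) * deriv γ t 0 =
          e * p * ((deriv γ t 0 + deriv γ t 1 + deriv γ t 2) / 2) +
          (n 0 : ℝ) * (D.al (γ t 0) * Real.sqrt (1 - p ^ 2 / (2 + sn (γ t 0)))) *
            deriv γ t 0 := by ring
      show |e * p / 2 * deriv γ t 0 + e * p / 2 * deriv γ t 1 + e * p / 2 * deriv γ t 2 +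
          (n 0 : ℝ) * (D.al (γ t 0) * Real.sqrt (1 - p ^ 2 / (2 + sn (γ t 0)))) * deriv γ t 0| ≤ _
      rw [h3]
      exact h2)
  refine le_trans ?_ h1
  refine le_trans ?_ (le_abs_self _)
  rw [intervalIntegral.integral_const_mul]
  set J := ∫ t in (0 : ℝ)..1, D.al t * Real.sqrt (1 - p ^ 2 / (2 + sn t)) with hJ
  have h4 : e * p / 2 * (n 0 : ℝ) + e * p / 2 * n 1 + e * p / 2 * n 2 + n 0 * (n 0 * J) =
      p / 2 * (e * ((n 0 + n 1 + n 2 : ℤ) : ℝ)) + J := by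
    push_cast
    linear_combination J * hn2
  rw [h4]
  have h5 : p / 2 * 1 ≤ p / 2 * (e * ((n 0 + n 1 + n 2 : ℤ) : ℝ)) :=
    mul_le_mul_of_nonneg_left hem (by linarith)
  linarith

/-- the same with `n 1 - n 2` odd, `z = (γ 1 - γ 2)/2` -/
theorem cross_m {D : Dat} {γ : ℝ → Fin 3 → ℝ} (hγ : ContDiff ℝ 1 γ) {n : Fin 3 → ℤ}
    (hn : ∀ i, γ 1 i = γ 0 i + n i) (h0 : n 0 = 1 ∨ n 0 = -1) (ho : Odd (n 1 - n 2))
    {p : ℝ} (hp0 : 0 ≤ p) (hp1 : p < 1)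
    (hI : 1 ≤ p / 2 + ∫ t in (0 : ℝ)..1, D.al t * Real.sqrt (1 - p ^ 2 / (2 - sn t))) :
    1 ≤ len (ex D) γ := by
  obtain ⟨e, he, hem⟩ := one_le_abs_of_odd ho
  have he2 : e ^ 2 = 1 := by rcases he with rfl | rfl <;> norm_num
  have hn2 : ((n 0 : ℤ) : ℝ) ^ 2 = 1 := by rcases h0 with h | h <;> rw [h] <;> norm_num
  have hbd := sn_bd
  have hc : Continuous fun t => D.al t * Real.sqrt (1 - p ^ 2 / (2 - sn t)) := by
    refine D.smooth.continuous.mul (Real.continuous_sqrt.comp (continuous_const.sub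
      (continuous_const.div (continuous_const.sub sn_cont) fun t => ?_)))
    linarith [(hbd t).2]
  have hper : ∀ t, D.al (t + 1) * Real.sqrt (1 - p ^ 2 / (2 - sn (t + 1))) =
      D.al t * Real.sqrt (1 - p ^ 2 / (2 - sn t)) := by
    intro t
    rw [D.per, sn_per]
  have h1 := gen (D := D) hγ hn (h := fun t => (n 0 : ℝ) * (D.al t *
    Real.sqrt (1 - p ^ 2 / (2 - sn t)))) (continuous_const.mul hc)
    (fun t => by simp only [hper]) 0 (e * p / 2) (-(e * p / 2)) (by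
      intro t
      have h2 := cs_ineq (al := D.al (γ t 0)) (p := p) (e := e) (e' := n 0) (s := 2 - sn (γ t 0))
        (u := deriv γ t 0) (v := (deriv γ t 1 - deriv γ t 2) / 2)
        (w := (2 + sn (γ t 0)) * ((deriv γ t 0 + deriv γ t 1 + deriv γ t 2) / 2) ^ 2) (D.pos _)
        (by linarith [(hbd (γ t 0)).2]) hp0 hp1 he2 hn2
        (mul_nonneg (by linarith [(hbd (γ t 0)).1]) (sq_nonneg _))
      have h3 : 0 * deriv γ t 0 + e * p / 2 * deriv γ t 1 + -(e * p / 2) * deriv γ t 2 +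
          (n 0 : ℝ) * (D.al (γ t 0) * Real.sqrt (1 - p ^ 2 / (2 - sn (γ t 0)))) * deriv γ t 0 =
          e * p * ((deriv γ t 1 - deriv γ t 2) / 2) +
          (n 0 : ℝ) * (D.al (γ t 0) * Real.sqrt (1 - p ^ 2 / (2 - sn (γ t 0)))) *
            deriv γ t 0 := by ring
      show |0 * deriv γ t 0 + e * p / 2 * deriv γ t 1 + -(e * p / 2) * deriv γ t 2 +
          (n 0 : ℝ) * (D.al (γ t 0) * Real.sqrt (1 - p ^ 2 / (2 - sn (γ t 0)))) * deriv γ t 0| ≤ _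
      rw [h3]
      refine h2.trans (le_of_eq ?_)
      unfold spd
      congr 1
      ring)
  refine le_trans ?_ h1
  refine le_trans ?_ (le_abs_self _)
  rw [intervalIntegral.integral_const_mul]
  set J := ∫ t in (0 : ℝ)..1, D.al t * Real.sqrt (1 - p ^ 2 / (2 - sn t)) with hJ
  have h4 : 0 * (n 0 : ℝ) + e * p / 2 * n 1 + -(e * p / 2) * n 2 + n 0 * (n 0 * J) =
      p / 2 * (e * ((n 1 - n 2 : ℤ) : ℝ)) + J := by
    push_cast
    linear_combination J * hn2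
  rw [h4]
  have h5 : p / 2 * 1 ≤ p / 2 * (e * ((n 1 - n 2 : ℤ) : ℝ)) :=
    mul_le_mul_of_nonneg_left hem (by linarith)
  linarith

/-- `f t = ∫_0^{γ t 0} al` -/
theorem far {D : Dat} {γ : ℝ → Fin 3 → ℝ} (hγ : ContDiff ℝ 1 γ) {n : Fin 3 → ℤ}
    (hn : ∀ i, γ 1 i = γ 0 i + n i) (h0 : 2 ≤ |n 0|)
    (hI : 1 / 2 ≤ ∫ t in (0 : ℝ)..1, D.al t) :
    1 ≤ len (ex D) γ := by
  have hbd := sn_bd
  have h1 := gen (D := D) hγ hn (h := D.al) D.smooth.continuous D.per 0 0 0 (by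
    intro t
    have h2 : 0 * deriv γ t 0 + 0 * deriv γ t 1 + 0 * deriv γ t 2 +
      D.al (γ t 0) * deriv γ t 0 = D.al (γ t 0) * deriv γ t 0 := by ring
    rw [h2]
    unfold spd
    refine Real.abs_le_sqrt ?_
    have h3 : 0 ≤ (2 + sn (γ t 0)) * ((deriv γ t 0 + deriv γ t 1 + deriv γ t 2) / 2) ^ 2 :=
      mul_nonneg (by linarith [(hbd (γ t 0)).1]) (sq_nonneg _)
    have h4 : 0 ≤ (2 - sn (γ t 0)) * ((deriv γ t 1 - deriv γ t 2) / 2) ^ 2 :=
      mul_nonneg (by linarith [(hbd (γ t 0)).2]) (sq_nonneg _)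
    rw [mul_pow]
    linarith)
  refine le_trans ?_ h1
  have h5 : 0 * (n 0 : ℝ) + 0 * (n 1 : ℝ) + 0 * (n 2 : ℝ) + n 0 * ∫ t in (0 : ℝ)..1, D.al t =
      n 0 * ∫ t in (0 : ℝ)..1, D.al t := by ring
  rw [h5, abs_mul]
  have h6 : (2 : ℝ) ≤ |(n 0 : ℝ)| := by
    rw [← Int.cast_abs]
    exact_mod_cast h0
  have h7 : 1 / 2 ≤ |∫ t in (0 : ℝ)..1, D.al t| := hI.trans (le_abs_self _)
  nlinarith [abs_nonneg ((n 0 : ℤ) : ℝ)]

/-- `n 0 = 0` and `n 1 + n 2` even: `|Δx| ≥ 1` or `|Δz| ≥ 1`, and `2 ± s ≥ 1` -/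
theorem even_loop {D : Dat} {γ : ℝ → Fin 3 → ℝ} (hγ : ContDiff ℝ 1 γ) {n : Fin 3 → ℤ}
    (hn : ∀ i, γ 1 i = γ 0 i + n i) (h0 : n 0 = 0) (hne : n ≠ 0) (he : Even (n 1 + n 2)) :
    1 ≤ len (ex D) γ := by
  have hbd := sn_bd
  obtain ⟨k, hk⟩ := he
  have hsq : ∀ t, 0 ≤ D.al (γ t 0) ^ 2 * (deriv γ t 0) ^ 2 := fun t => by positivity
  have h3 : ∀ t, 0 ≤ (1 + sn (γ t 0)) * ((deriv γ t 0 + deriv γ t 1 + deriv γ t 2) / 2) ^ 2 :=
    fun t => mul_nonneg (by linarith [(hbd (γ t 0)).1]) (sq_nonneg _)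
  have h4 : ∀ t, 0 ≤ (1 - sn (γ t 0)) * ((deriv γ t 1 - deriv γ t 2) / 2) ^ 2 :=
    fun t => mul_nonneg (by linarith [(hbd (γ t 0)).2]) (sq_nonneg _)
  rcases eq_or_ne k 0 with hk0 | hk0
  · have hz : n 1 - n 2 = 2 * n 1 := by omega
    have hn1 : n 1 ≠ 0 := by
      intro h
      refine hne ?_
      funext i
      fin_cases i
      · exact h0
      · exact h
      · show n 2 = 0
        omega
    have h1 := gen (D := D) hγ hn (h := fun _ => 0) continuous_const (fun _ => rfl) 0 (1 / 2)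
      (-(1 / 2)) (by
      intro t
      have h2 : 0 * deriv γ t 0 + 1 / 2 * deriv γ t 1 + -(1 / 2) * deriv γ t 2 +
        0 * deriv γ t 0 = (deriv γ t 1 - deriv γ t 2) / 2 := by ring
      rw [h2]
      unfold spd
      refine Real.abs_le_sqrt ?_
      nlinarith [hsq t, h3 t, h4 t,
        sq_nonneg ((deriv γ t 0 + deriv γ t 1 + deriv γ t 2) / 2)])
    refine le_trans ?_ h1
    have h5 : 0 * (n 0 : ℝ) + 1 / 2 * (n 1 : ℝ) + -(1 / 2) * (n 2 : ℝ) +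
        n 0 * ∫ t in (0 : ℝ)..1, (0 : ℝ) = ((n 1 : ℤ) : ℝ) := by
      have h6 : ((n 1 - n 2 : ℤ) : ℝ) = ((2 * n 1 : ℤ) : ℝ) := by rw [hz]
      push_cast at h6
      rw [intervalIntegral.integral_zero]
      linear_combination h6 / 2
    rw [h5, ← Int.cast_abs]
    exact_mod_cast Int.one_le_abs hn1
  · have h1 := gen (D := D) hγ hn (h := fun _ => 0) continuous_const (fun _ => rfl) (1 / 2) (1 / 2)
      (1 / 2) (by
      intro t
      have h2 : 1 / 2 * deriv γ t 0 + 1 / 2 * deriv γ t 1 + 1 / 2 * deriv γ t 2 +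
        0 * deriv γ t 0 = (deriv γ t 0 + deriv γ t 1 + deriv γ t 2) / 2 := by ring
      rw [h2]
      unfold spd
      refine Real.abs_le_sqrt ?_
      nlinarith [hsq t, h3 t, h4 t, sq_nonneg ((deriv γ t 1 - deriv γ t 2) / 2)])
    refine le_trans ?_ h1
    have h5 : 1 / 2 * (n 0 : ℝ) + 1 / 2 * (n 1 : ℝ) + 1 / 2 * (n 2 : ℝ) +
        n 0 * ∫ t in (0 : ℝ)..1, (0 : ℝ) = ((k : ℤ) : ℝ) := by
      have h6 : ((n 1 + n 2 : ℤ) : ℝ) = ((k + k : ℤ) : ℝ) := by rw [hk]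
      push_cast at h6
      rw [intervalIntegral.integral_zero, h0]
      push_cast
      linear_combination h6 / 2
    rw [h5, ← Int.cast_abs]
    exact_mod_cast Int.one_le_abs hk0

end Pool.Agent.Lib.MP_c3a607_gt
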