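import Pool.Agent.Lib.MP_c3a607_gt.Ex

set_option autoImplicit false

open scoped ContDiff Matrix
open MeasureTheory

namespace Pool.Agent.Lib.MP_c3a607_gt

/-- the integrand of the length in the example -/
noncomputable def spd (D : Dat) (γ : ℝ → Fin 3 → ℝ) (t : ℝ) : ℝ :=
  Real.sqrt (D.al (γ t 0) ^ 2 * (deriv γ t 0) ^ 2 +
    (2 + sn (γ t 0)) * ((deriv γ t 0 + deriv γ t 1 + deriv γ t 2) / 2) ^ 2 +
    (2 - sn (γ t 0)) * ((deriv γ t 1 - deriv γ t 2) / 2) ^ 2)

theorem len_ex (D : Dat) (γ : ℝ → Fin 3 → ℝ) : len (ex D) γ = ∫ t in (0 : ℝ)..1, spd D γ t := by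
  unfold len
  congr 1
  funext t
  show Real.sqrt (deriv γ t ⬝ᵥ (mat D (γ t 0) *ᵥ deriv γ t)) = spd D γ t
  rw [mat_quad]
  rfl

theorem hasDerivAt_coord {γ : ℝ → Fin 3 → ℝ} (hγ : ContDiff ℝ 1 γ) (i : Fin 3) (t : ℝ) :
    HasDerivAt (fun t => γ t i) (deriv γ t i) t := by
  have h1 : HasDerivAt γ (deriv γ t) t :=
    (hγ.differentiable (by norm_num) t).hasDerivAt
  exact hasDerivAt_pi.1 h1 i

private theorem spd_cont (D : Dat) {γ : ℝ → Fin 3 → ℝ} (hγ : ContDiff ℝ 1 γ) :
    Continuous (spd D γ) := by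
  have h0 : ∀ i, Continuous fun t => γ t i := fun i => (continuous_apply i).comp hγ.continuous
  have h1 : ∀ i, Continuous fun t => deriv γ t i := fun i =>
    (continuous_apply i).comp (hγ.continuous_deriv le_rfl)
  have h2 : Continuous fun t => D.al (γ t 0) := D.smooth.continuous.comp (h0 0)
  have h3 : Continuous fun t => sn (γ t 0) := by
    unfold sn
    exact Real.continuous_sin.comp (continuous_const.mul (h0 0))
  unfold spd
  refine Real.continuous_sqrt.comp ?_
  exact (((h2.pow 2).mul ((h1 0).pow 2)).add ((continuous_const.add h3).mul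
    (((((h1 0).add (h1 1)).add (h1 2)).div_const 2).pow 2))).add
    ((continuous_const.sub h3).mul ((((h1 1).sub (h1 2)).div_const 2).pow 2))

/-- The basic estimate: a function on the curve whose derivative is at most the speed. -/
theorem len_ge {D : Dat} {γ : ℝ → Fin 3 → ℝ} (hγ : ContDiff ℝ 1 γ) {f f' : ℝ → ℝ}
    (hf : ∀ t, HasDerivAt f (f' t) t) (hb : ∀ t, |f' t| ≤ spd D γ t) :
    |f 1 - f 0| ≤ len (ex D) γ := by
  have hs := spd_cont D hγ
  have h1 := image_norm_le_of_norm_deriv_right_le_deriv_boundary (f := fun t => f t - f 0)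
    (f' := f') (a := 0) (b := 1) (B := fun t => ∫ s in (0 : ℝ)..t, spd D γ s)
    (B' := spd D γ)
    (fun t _ => ((hf t).sub_const (f 0)).continuousAt.continuousWithinAt)
    (fun t _ => ((hf t).sub_const (f 0)).hasDerivWithinAt)
    (by simp)
    (fun t => (hs.integral_hasStrictDerivAt 0 t).hasDerivAt)
    (fun t _ => hb t) (x := 1) ⟨zero_le_one, le_rfl⟩
  rw [len_ex]
  exact h1

end Pool.Agent.Lib.MP_c3a607_gt
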