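import Pool.Agent.Lib.MP_c3a607_gt.Defs

/-!
# The choice of the free function of the example
-/

set_option autoImplicit false

open scoped ContDiff Matrix
open MeasureTheory

namespace Pool.Agent.Lib.MP_c3a607_gt

/-- a polynomial lower bound -/
noncomputable def Lp (y : ℝ) : ℝ :=
  (4216537 / 5000000) + (291087 / 5000000) * y + (-569 / 2000000) * y ^ 2 + (-28337 / 5000000) * y ^ 3 + (8731 / 5000000) * y ^ 4 + (-33027 / 10000000) * y ^ 5

/-- a polynomial lower bound -/
noncomputable def Mp (y : ℝ) : ℝ :=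
  (2844791 / 1000000) + (-10587117 / 10000000) * y + (-50931 / 2500000) * y ^ 2 + (-7047 / 625000) * y ^ 3 + (27663 / 10000000) * y ^ 4 + (-25801 / 5000000) * y ^ 5

theorem Lp_nonneg {y : ℝ} (h0 : 0 ≤ y) (h1 : y ≤ 1) : 0 ≤ Lp y := by
  have h2 : 0 ≤ 1 - y := by linarith
  have e : Lp y = (4216537 / 5000000) * (y ^ 0 * (1 - y) ^ 5) +
      (5343443 / 1250000) * (y ^ 1 * (1 - y) ^ 4) +
      (86656591 / 10000000) * (y ^ 2 * (1 - y) ^ 3) +
      (3510343 / 400000) * (y ^ 3 * (1 - y) ^ 2) +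
      (8877929 / 2000000) * (y ^ 4 * (1 - y) ^ 1) +
      (2235041 / 2500000) * (y ^ 5 * (1 - y) ^ 0) := by
    unfold Lp; ring
  rw [e]; positivity

theorem Mp_nonneg {y : ℝ} (h0 : 0 ≤ y) (h1 : y ≤ 1) : 0 ≤ Mp y := by
  have h2 : 0 ≤ 1 - y := by linarith
  have e : Mp y = (2844791 / 1000000) * (y ^ 0 * (1 - y) ^ 5) +
      (131652433 / 10000000) * (y ^ 1 * (1 - y) ^ 4) +
      (60481727 / 2500000) * (y ^ 2 * (1 - y) ^ 3) +
      (110116237 / 5000000) * (y ^ 3 * (1 - y) ^ 2) +
      (99082069 / 10000000) * (y ^ 4 * (1 - y) ^ 1) +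
      (8760189 / 5000000) * (y ^ 5 * (1 - y) ^ 0) := by
    unfold Mp; ring
  rw [e]; positivity

theorem Mp_sq {y : ℝ} (h0 : 0 ≤ y) (h1 : y ≤ 1) :
    Mp y ^ 2 ≤ ((2 - (0.76 : ℝ) ^ 2) ^ 2 - y) * (4 - y) := by
  have h2 : 0 ≤ 1 - y := by linarith
  have e : ((2 - (0.76 : ℝ) ^ 2) ^ 2 - y) * (4 - y) - Mp y ^ 2 =
      (51206319 / 1000000000000) * (y ^ 0 * (1 - y) ^ 10) +
      (4586673497 / 5000000000000) * (y ^ 1 * (1 - y) ^ 9) +
      (99170455951 / 100000000000000) * (y ^ 2 * (1 - y) ^ 8) +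
      (12928275437 / 6250000000000) * (y ^ 3 * (1 - y) ^ 7) +
      (20290985773 / 1562500000000) * (y ^ 4 * (1 - y) ^ 6) +
      (1104552955751 / 50000000000000) * (y ^ 5 * (1 - y) ^ 5) +
      (78318465917 / 6250000000000) * (y ^ 6 * (1 - y) ^ 4) +
      (5078656007 / 5000000000000) * (y ^ 7 * (1 - y) ^ 3) +
      (4912393779 / 20000000000000) * (y ^ 8 * (1 - y) ^ 2) +
      (19213048959 / 25000000000000) * (y ^ 9 * (1 - y) ^ 1) +
      (720684279 / 25000000000000) * (y ^ 10 * (1 - y) ^ 0) := by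
    unfold Mp; ring
  have : 0 ≤ ((2 - (0.76 : ℝ) ^ 2) ^ 2 - y) * (4 - y) - Mp y ^ 2 := by
    rw [e]; positivity
  linarith

theorem Lp_sq {y : ℝ} (h0 : 0 ≤ y) (h1 : y ≤ 1) :
    (Lp y * (4 - y)) ^ 2 ≤ 2 * (4 - y) - 4 * (0.76 : ℝ) ^ 2 + 2 * Mp y := by
  have h2 : 0 ≤ 1 - y := by linarith
  have e : 2 * (4 - y) - 4 * (0.76 : ℝ) ^ 2 + 2 * Mp y - (Lp y * (4 - y)) ^ 2 =
      (787602631 / 1562500000000) * (y ^ 0 * (1 - y) ^ 12) +
      (21622187637 / 3125000000000) * (y ^ 1 * (1 - y) ^ 11) +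
      (747536051991 / 25000000000000) * (y ^ 2 * (1 - y) ^ 10) +
      (133379020437 / 1562500000000) * (y ^ 3 * (1 - y) ^ 9) +
      (5103995521829 / 25000000000000) * (y ^ 4 * (1 - y) ^ 8) +
      (9192294804983 / 25000000000000) * (y ^ 5 * (1 - y) ^ 7) +
      (43984708423411 / 100000000000000) * (y ^ 6 * (1 - y) ^ 6) +
      (16770145271283 / 50000000000000) * (y ^ 7 * (1 - y) ^ 5) +
      (133654209493 / 800000000000) * (y ^ 8 * (1 - y) ^ 4) +
      (3120355716829 / 50000000000000) * (y ^ 9 * (1 - y) ^ 3) +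
      (2065283416599 / 100000000000000) * (y ^ 10 * (1 - y) ^ 2) +
      (58101505307 / 12500000000000) * (y ^ 11 * (1 - y) ^ 1) +
      (1798054871 / 6250000000000) * (y ^ 12 * (1 - y) ^ 0) := by
    unfold Mp Lp; ring
  have : 0 ≤ 2 * (4 - y) - 4 * (0.76 : ℝ) ^ 2 + 2 * Mp y - (Lp y * (4 - y)) ^ 2 := by
    rw [e]; positivity
  linarith

theorem le_of_sq_aux {a b : ℝ} (hb : 0 ≤ b) (h : a ^ 2 ≤ b ^ 2) : a ≤ b :=
  le_trans (le_abs_self a) (abs_le_of_sq_le_sq h hb)

/-- the sum of the two square roots -/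
noncomputable def Es (s : ℝ) : ℝ :=
  Real.sqrt (1 - (0.76 : ℝ) ^ 2 / (2 + s)) + Real.sqrt (1 - (0.76 : ℝ) ^ 2 / (2 - s))

theorem Es_bounds {s : ℝ} (hs : s ^ 2 ≤ 1) :
    Lp (s ^ 2) ≤ Es s / Real.sqrt (4 - s ^ 2) ∧ 1.54851 ≤ Es s := by
  have hs1 : -1 ≤ s := by nlinarith
  have hs2 : s ≤ 1 := by nlinarith
  have h0 : (0 : ℝ) ≤ s ^ 2 := sq_nonneg s
  have hp : 0 < 2 + s := by linarith
  have hm : 0 < 2 - s := by linarith
  set a : ℝ := Real.sqrt (1 - (0.76 : ℝ) ^ 2 / (2 + s)) with ha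
  set b : ℝ := Real.sqrt (1 - (0.76 : ℝ) ^ 2 / (2 - s)) with hb
  have hEs : Es s = a + b := rfl
  have ha0 : 0 ≤ a := Real.sqrt_nonneg _
  have hb0 : 0 ≤ b := Real.sqrt_nonneg _
  have hA : 0 ≤ 1 - (0.76 : ℝ) ^ 2 / (2 + s) := by
    rw [sub_nonneg, div_le_one hp]; norm_num; linarith
  have hB : 0 ≤ 1 - (0.76 : ℝ) ^ 2 / (2 - s) := by
    rw [sub_nonneg, div_le_one hm]; norm_num; linarith
  have ha2 : a ^ 2 * (2 + s) = 2 + s - (0.76 : ℝ) ^ 2 := by
    rw [ha, Real.sq_sqrt hA]; field_simp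
  have hb2 : b ^ 2 * (2 - s) = 2 - s - (0.76 : ℝ) ^ 2 := by
    rw [hb, Real.sq_sqrt hB]; field_simp
  have hab : (a * b) ^ 2 * (4 - s ^ 2) = (2 - (0.76 : ℝ) ^ 2) ^ 2 - s ^ 2 := by
    calc (a * b) ^ 2 * (4 - s ^ 2) = (a ^ 2 * (2 + s)) * (b ^ 2 * (2 - s)) := by ring
      _ = _ := by rw [ha2, hb2]; ring
  have hE : (a + b) ^ 2 * (4 - s ^ 2) =
      2 * (4 - s ^ 2) - 4 * (0.76 : ℝ) ^ 2 + 2 * (a * b * (4 - s ^ 2)) := by
    calc (a + b) ^ 2 * (4 - s ^ 2) = (a ^ 2 * (2 + s)) * (2 - s) + (b ^ 2 * (2 - s)) * (2 + s)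
          + 2 * (a * b * (4 - s ^ 2)) := by ring
      _ = _ := by rw [ha2, hb2]; ring
  have h4 : 0 < 4 - s ^ 2 := by linarith
  have hab0 : 0 ≤ a * b := mul_nonneg ha0 hb0
  constructor
  · rw [le_div_iff₀ (Real.sqrt_pos.2 h4), hEs]
    have hM : Mp (s ^ 2) ≤ a * b * (4 - s ^ 2) := by
      apply le_of_sq_aux (by positivity)
      calc Mp (s ^ 2) ^ 2 ≤ ((2 - (0.76 : ℝ) ^ 2) ^ 2 - s ^ 2) * (4 - s ^ 2) := Mp_sq h0 hs
        _ = (a * b) ^ 2 * (4 - s ^ 2) * (4 - s ^ 2) := by rw [hab]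
        _ = (a * b * (4 - s ^ 2)) ^ 2 := by ring
    have hL := Lp_sq h0 hs
    have h5 : (Lp (s ^ 2) * (4 - s ^ 2)) ^ 2 ≤ (a + b) ^ 2 * (4 - s ^ 2) := by
      rw [hE]; linarith
    have h6 : Lp (s ^ 2) ^ 2 * (4 - s ^ 2) ≤ (a + b) ^ 2 := by
      have : Lp (s ^ 2) ^ 2 * (4 - s ^ 2) * (4 - s ^ 2) ≤ (a + b) ^ 2 * (4 - s ^ 2) := by
        calc _ = (Lp (s ^ 2) * (4 - s ^ 2)) ^ 2 := by ring
          _ ≤ _ := h5
      exact le_of_mul_le_mul_right this h4
    apply le_of_sq_aux (by positivity)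
    rw [mul_pow, Real.sq_sqrt h4.le]
    exact h6
  · rw [hEs]
    have h7 : (0.34107392 : ℝ) ≤ (a * b) ^ 2 := by
      by_contra hcon
      rw [not_le] at hcon
      have : (a * b) ^ 2 * (4 - s ^ 2) < 0.34107392 * (4 - s ^ 2) :=
        mul_lt_mul_of_pos_right hcon h4
      rw [hab] at this
      norm_num at this
      linarith
    have h8 : (0.58401 : ℝ) ≤ a * b := by
      apply le_of_sq_aux hab0
      refine le_trans ?_ h7
      norm_num
    apply le_of_sq_aux (by positivity)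
    have h9 : (2.3978866 : ℝ) * (4 - s ^ 2) ≤ (a + b) ^ 2 * (4 - s ^ 2) := by
      rw [hE]
      have : (0.58401 : ℝ) * (4 - s ^ 2) ≤ a * b * (4 - s ^ 2) :=
        mul_le_mul_of_nonneg_right h8 h4.le
      norm_num
      norm_num at this
      linarith
    have h10 := le_of_mul_le_mul_right h9 h4
    refine le_trans ?_ h10
    norm_num


theorem sn_cont : Continuous sn := by unfold sn; fun_prop

theorem cs_cont : Continuous cs := by unfold cs; fun_prop

theorem sn_contDiff : ContDiff ℝ ∞ sn := by unfold sn; fun_prop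

theorem cs_contDiff : ContDiff ℝ ∞ cs := by unfold cs; fun_prop

theorem sn_sq_le (t : ℝ) : sn t ^ 2 ≤ 1 := by
  unfold sn; exact Real.sin_sq_le_one _

theorem hasDerivAt_sn (t : ℝ) : HasDerivAt sn (2 * Real.pi * cs t) t := by
  unfold sn cs
  have h1 : HasDerivAt (fun t : ℝ => 2 * Real.pi * t) (2 * Real.pi) t := by
    simpa using (hasDerivAt_id t).const_mul (2 * Real.pi)
  have h2 := h1.sin
  convert h2 using 1
  ring

theorem sn_zero : sn 0 = 0 := by simp [sn]

theorem sn_one : sn 1 = 0 := by simp [sn]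

theorem sn_quarter : sn (1 / 4) = 1 := by
  unfold sn
  rw [show 2 * Real.pi * (1 / 4) = Real.pi / 2 by ring, Real.sin_pi_div_two]

theorem sn_three_quarters : sn (3 / 4) = -1 := by
  unfold sn
  rw [show 2 * Real.pi * (3 / 4) = Real.pi / 2 + Real.pi by ring, Real.sin_add_pi,
    Real.sin_pi_div_two]

theorem sn_add_one (t : ℝ) : sn (t + 1) = sn t := by
  unfold sn
  rw [show 2 * Real.pi * (t + 1) = 2 * Real.pi * t + 2 * Real.pi by ring, Real.sin_add_two_pi]

theorem cs_add_one (t : ℝ) : cs (t + 1) = cs t := by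
  unfold cs
  rw [show 2 * Real.pi * (t + 1) = 2 * Real.pi * t + 2 * Real.pi by ring, Real.cos_add_two_pi]

theorem sn_one_sub (t : ℝ) : sn (1 - t) = - sn t := by
  unfold sn
  rw [show 2 * Real.pi * (1 - t) = 2 * Real.pi - 2 * Real.pi * t by ring, Real.sin_two_pi_sub]

theorem cs_one_sub (t : ℝ) : cs (1 - t) = cs t := by
  unfold cs
  rw [show 2 * Real.pi * (1 - t) = 2 * Real.pi - 2 * Real.pi * t by ring, Real.cos_two_pi_sub]

/-- if `F' = f` (in the variable `s`) then `∫ cs · f(sn) = (F - F)/(2π)` -/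
theorem int_cs (F f : ℝ → ℝ) (hF : ∀ s, HasDerivAt F (f s) s) (hf : Continuous f) (a b : ℝ) :
    ∫ t in a..b, cs t * f (sn t) = (F (sn b) - F (sn a)) / (2 * Real.pi) := by
  have h : ∀ t ∈ Set.uIcc a b,
      HasDerivAt (fun t => F (sn t) / (2 * Real.pi)) (cs t * f (sn t)) t := by
    intro t _
    have h1 : HasDerivAt (F ∘ sn) (f (sn t) * (2 * Real.pi * cs t)) t :=
      (hF (sn t)).comp t (hasDerivAt_sn t)
    have h2 := h1.div_const (2 * Real.pi)
    have h3 : f (sn t) * (2 * Real.pi * cs t) / (2 * Real.pi) = cs t * f (sn t) := by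
      have := Real.pi_ne_zero
      field_simp
    rw [h3] at h2
    exact h2
  rw [intervalIntegral.integral_eq_sub_of_hasDerivAt h
    ((cs_cont.mul (hf.comp sn_cont)).intervalIntegrable a b)]
  ring

theorem split_int (g : ℝ → ℝ) (hg : Continuous g) :
    ∫ t in (0 : ℝ)..1, g t = (∫ t in (0 : ℝ)..(1 / 4), g t) +
      (∫ t in (1 / 4 : ℝ)..(3 / 4), g t) + ∫ t in (3 / 4 : ℝ)..1, g t := by
  rw [intervalIntegral.integral_add_adjacent_intervals (hg.intervalIntegrable _ _)
    (hg.intervalIntegrable _ _), intervalIntegral.integral_add_adjacent_intervals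
    (hg.intervalIntegrable _ _) (hg.intervalIntegrable _ _)]

/-- an antiderivative of `s ↦ Lp (s ^ 2)` -/
noncomputable def Pp (s : ℝ) : ℝ :=
  (4216537 / 5000000) * s ^ 1 + (97029 / 5000000) * s ^ 3 + (-569 / 10000000) * s ^ 5 + (-28337 / 35000000) * s ^ 7 + (8731 / 45000000) * s ^ 9 + (-33027 / 110000000) * s ^ 11

theorem hasDerivAt_Pp (s : ℝ) : HasDerivAt Pp (Lp (s ^ 2)) s := by
  unfold Pp Lp
  have h : ∀ (c : ℝ) (n : ℕ), HasDerivAt (fun s : ℝ => c * s ^ (n + 1))
      (c * ((n + 1 : ℕ) * s ^ n)) s := by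
    intro c n
    have := (hasDerivAt_pow (n + 1) s).const_mul c
    simpa using this
  have := ((((h (4216537 / 5000000) 0).add (h (97029 / 5000000) 2)).add (h (-569 / 10000000) 4)).add (h (-28337 / 35000000) 6)).add (h (8731 / 45000000) 8) |>.add
    (h (-33027 / 110000000) 10)
  refine this.congr_deriv ?_
  push_cast
  ring

theorem Lp_cont : Continuous Lp := by unfold Lp; fun_prop

theorem int_lower : 2 * Pp 1 / Real.pi ≤ ∫ t in (0 : ℝ)..1, |cs t| * Lp (sn t ^ 2) := by
  have hL : Continuous fun s : ℝ => Lp (s ^ 2) := Lp_cont.comp (continuous_pow 2)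
  have hg : Continuous fun t => |cs t| * Lp (sn t ^ 2) := cs_cont.abs.mul (hL.comp sn_cont)
  have hg1 : Continuous fun t => cs t * Lp (sn t ^ 2) := cs_cont.mul (hL.comp sn_cont)
  have hL0 : ∀ t, 0 ≤ Lp (sn t ^ 2) := fun t => Lp_nonneg (sq_nonneg _) (sn_sq_le t)
  have key : ∀ a b : ℝ, a ≤ b →
      |(Pp (sn b) - Pp (sn a)) / (2 * Real.pi)| ≤ ∫ t in a..b, |cs t| * Lp (sn t ^ 2) := by
    intro a b hab
    rw [← int_cs Pp (fun s => Lp (s ^ 2)) hasDerivAt_Pp hL a b]
    refine le_trans (intervalIntegral.abs_integral_le_integral_abs hab) ?_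
    apply intervalIntegral.integral_mono_on hab (hg1.abs.intervalIntegrable _ _)
      (hg.intervalIntegrable _ _)
    intro t _
    rw [abs_mul, abs_of_nonneg (hL0 t)]
  rw [split_int _ hg]
  have h1 := key 0 (1 / 4) (by norm_num)
  have h2 := key (1 / 4) (3 / 4) (by norm_num)
  have h3 := key (3 / 4) 1 (by norm_num)
  rw [sn_zero, sn_quarter] at h1
  rw [sn_three_quarters, sn_quarter] at h2
  rw [sn_three_quarters, sn_one] at h3
  have e0 : Pp 0 = 0 := by unfold Pp; norm_num
  have em : Pp (-1) = - Pp 1 := by unfold Pp; norm_num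
  rw [e0, sub_zero] at h1
  rw [em] at h2
  rw [e0, em, zero_sub, neg_neg] at h3
  have h1' := le_trans (le_abs_self _) h1
  have h2' := le_trans (neg_le_abs _) h2
  have h3' := le_trans (le_abs_self _) h3
  have : 2 * Pp 1 / Real.pi = Pp 1 / (2 * Real.pi) + -((-Pp 1 - Pp 1) / (2 * Real.pi)) +
      Pp 1 / (2 * Real.pi) := by
    have := Real.pi_ne_zero
    field_simp
    ring
  rw [this]
  linarith

theorem int_abs_cs : ∫ t in (0 : ℝ)..1, |cs t| = 2 / Real.pi := by
  rw [split_int _ cs_cont.abs]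
  have hid : ∀ s : ℝ, HasDerivAt (fun s : ℝ => s) ((fun _ : ℝ => (1 : ℝ)) s) s :=
    fun s => hasDerivAt_id' s
  have h := fun a b => int_cs (fun s => s) (fun _ => 1) hid continuous_const a b
  simp only [mul_one] at h
  have hpi := Real.pi_pos
  have h1 : ∫ t in (0 : ℝ)..(1 / 4), |cs t| = 1 / (2 * Real.pi) := by
    have : ∫ t in (0 : ℝ)..(1 / 4), |cs t| = ∫ t in (0 : ℝ)..(1 / 4), cs t := by
      apply intervalIntegral.integral_congr
      intro t ht
      rw [Set.uIcc_of_le (by norm_num)] at ht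
      apply abs_of_nonneg
      unfold cs
      apply Real.cos_nonneg_of_neg_pi_div_two_le_of_le
      · nlinarith [ht.1, ht.2]
      · nlinarith [ht.1, ht.2]
    rw [this, h, sn_quarter, sn_zero]
    ring
  have h2 : ∫ t in (1 / 4 : ℝ)..(3 / 4), |cs t| = 2 / (2 * Real.pi) := by
    have : ∫ t in (1 / 4 : ℝ)..(3 / 4), |cs t| = ∫ t in (1 / 4 : ℝ)..(3 / 4), -cs t := by
      apply intervalIntegral.integral_congr
      intro t ht
      rw [Set.uIcc_of_le (by norm_num)] at ht
      apply abs_of_nonpos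
      unfold cs
      apply Real.cos_nonpos_of_pi_div_two_le_of_le
      · nlinarith [ht.1, ht.2]
      · nlinarith [ht.1, ht.2]
    rw [this, intervalIntegral.integral_neg, h, sn_quarter, sn_three_quarters]
    ring
  have h3 : ∫ t in (3 / 4 : ℝ)..1, |cs t| = 1 / (2 * Real.pi) := by
    have : ∫ t in (3 / 4 : ℝ)..1, |cs t| = ∫ t in (3 / 4 : ℝ)..1, cs t := by
      apply intervalIntegral.integral_congr
      intro t ht
      rw [Set.uIcc_of_le (by norm_num)] at ht
      apply abs_of_nonneg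
      rw [show t = (t - 1) + 1 by ring, cs_add_one]
      unfold cs
      apply Real.cos_nonneg_of_neg_pi_div_two_le_of_le
      · nlinarith [ht.1, ht.2]
      · nlinarith [ht.1, ht.2]
    rw [this, h, sn_one, sn_three_quarters]
    ring
  rw [h1, h2, h3]
  field_simp
  ring

/-! ### The free function -/

/-- the bump -/
noncomputable def psi (t : ℝ) : ℝ :=
  Real.smoothTransition ((sn t ^ 2 - 1 + 1 / 10 ^ 6) / (1 / 10 ^ 6))

theorem psi_contDiff : ContDiff ℝ ∞ psi := by
  unfold psi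
  apply Real.smoothTransition.contDiff.comp
  have := sn_contDiff
  fun_prop

theorem psi_nonneg (t : ℝ) : 0 ≤ psi t := Real.smoothTransition.nonneg _

theorem psi_int_pos : 0 < ∫ t in (0 : ℝ)..1, psi t := by
  apply intervalIntegral.integral_pos (by norm_num) psi_contDiff.continuous.continuousOn
    (fun t _ => psi_nonneg t)
  refine ⟨1 / 4, ⟨by norm_num, by norm_num⟩, ?_⟩
  unfold psi
  rw [sn_quarter]
  apply Real.smoothTransition.pos_of_pos
  norm_num

/-- the constant in front of the bump -/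
noncomputable def Cp : ℝ := 0.4465 / ∫ t in (0 : ℝ)..1, psi t

theorem Cp_pos : 0 < Cp := div_pos (by norm_num) psi_int_pos

theorem Cp_mul : Cp * ∫ t in (0 : ℝ)..1, psi t = 0.4465 := by
  unfold Cp
  exact div_mul_cancel₀ _ psi_int_pos.ne'

/-- the smoothed absolute value of `cs` -/
noncomputable def acs (t : ℝ) : ℝ := Real.sqrt (cs t ^ 2 + (1 / 10 ^ 6) ^ 2)

theorem acs_contDiff : ContDiff ℝ ∞ acs := by
  unfold acs
  apply ContDiff.sqrt
  · have := cs_contDiff
    fun_prop
  · intro t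
    positivity

theorem acs_pos (t : ℝ) : 0 < acs t := Real.sqrt_pos.2 (by positivity)

theorem abs_le_acs (t : ℝ) : |cs t| ≤ acs t := by
  unfold acs
  apply Real.le_sqrt_of_sq_le
  rw [sq_abs]
  have : (0 : ℝ) ≤ (1 / 10 ^ 6) ^ 2 := by positivity
  linarith

theorem acs_le (t : ℝ) : acs t ≤ |cs t| + 1 / 10 ^ 6 := by
  unfold acs
  rw [Real.sqrt_le_left (by positivity)]
  have h1 : cs t ^ 2 = |cs t| ^ 2 := (sq_abs _).symm
  rw [h1]
  nlinarith [abs_nonneg (cs t)]

/-- the square root of `4 - sn²` -/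
noncomputable def rt (t : ℝ) : ℝ := Real.sqrt (4 - sn t ^ 2)

theorem four_sub_pos (t : ℝ) : 0 < 4 - sn t ^ 2 := by
  have := sn_sq_le t
  linarith

theorem rt_contDiff : ContDiff ℝ ∞ rt := by
  unfold rt
  apply ContDiff.sqrt
  · have := sn_contDiff
    fun_prop
  · intro t
    exact (four_sub_pos t).ne'

theorem rt_pos (t : ℝ) : 0 < rt t := Real.sqrt_pos.2 (four_sub_pos t)

theorem rt_le (t : ℝ) : rt t ≤ 2 := by
  unfold rt
  rw [Real.sqrt_le_left (by norm_num)]
  nlinarith [sq_nonneg (sn t)]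

theorem psi_mul_rt (t : ℝ) : psi t * rt t ≤ psi t * 1.7320512 := by
  by_cases h : sn t ^ 2 ≤ 1 - 1 / 10 ^ 6
  · have : psi t = 0 := by
      unfold psi
      apply Real.smoothTransition.zero_of_nonpos
      apply div_nonpos_of_nonpos_of_nonneg
      · linarith
      · positivity
    rw [this]; simp
  · rw [not_le] at h
    apply mul_le_mul_of_nonneg_left _ (psi_nonneg t)
    unfold rt
    rw [Real.sqrt_le_left (by norm_num)]
    norm_num at h ⊢
    linarith

/-- the free function -/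
noncomputable def alf (t : ℝ) : ℝ := acs t / rt t + Cp * psi t

theorem alf_contDiff : ContDiff ℝ ∞ alf := by
  unfold alf
  exact (acs_contDiff.div rt_contDiff (fun t => (rt_pos t).ne')).add
    (contDiff_const.mul psi_contDiff)

theorem alf_pos (t : ℝ) : 0 < alf t := by
  have h1 := div_pos (acs_pos t) (rt_pos t)
  have h2 := mul_nonneg Cp_pos.le (psi_nonneg t)
  unfold alf
  linarith

/-- the data of the example -/
noncomputable def theDat : Dat where
  al := alf
  smooth := alf_contDiff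
  per := fun t => by
    unfold alf acs rt psi
    rw [cs_add_one, sn_add_one]
  pos := alf_pos

theorem alf_one_sub (t : ℝ) : alf (1 - t) = alf t := by
  unfold alf acs rt psi
  rw [cs_one_sub, sn_one_sub, neg_sq]

/-- the square root in the calibration -/
noncomputable def rq (s : ℝ) : ℝ := Real.sqrt (1 - (0.76 : ℝ) ^ 2 / (2 + s))

theorem rq_cont : Continuous fun t => rq (sn t) := by
  unfold rq
  apply Continuous.sqrt
  apply continuous_const.sub
  refine Continuous.div continuous_const (continuous_const.add sn_cont) (fun t => ?_)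
  have := sn_sq_le t
  intro h
  change 2 + sn t = 0 at h
  nlinarith

theorem rq_cont' : Continuous fun t => rq (-sn t) := by
  unfold rq
  apply Continuous.sqrt
  apply continuous_const.sub
  refine Continuous.div continuous_const (continuous_const.add sn_cont.neg) (fun t => ?_)
  have := sn_sq_le t
  intro h
  change 2 + -sn t = 0 at h
  nlinarith

theorem Es_eq (s : ℝ) : Es s = rq s + rq (-s) := by
  unfold Es rq
  rw [← sub_eq_add_neg]

theorem int_sym : ∫ t in (0 : ℝ)..1, alf t * rq (-sn t) = ∫ t in (0 : ℝ)..1, alf t * rq (sn t) := by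
  have h := intervalIntegral.integral_comp_sub_left (fun t => alf t * rq (sn t)) (a := 0) (b := 1)
    (1 : ℝ)
  simp only [sub_zero, sub_self] at h
  rw [← h]
  apply intervalIntegral.integral_congr
  intro t _
  simp only
  rw [alf_one_sub, sn_one_sub]

theorem int_key : 1 ≤ 0.76 / 2 + ∫ t in (0 : ℝ)..1, alf t * rq (sn t) := by
  have hc := alf_contDiff.continuous
  have h1 : (∫ t in (0 : ℝ)..1, alf t * Es (sn t)) = 2 * ∫ t in (0 : ℝ)..1, alf t * rq (sn t) := by
    have : (∫ t in (0 : ℝ)..1, alf t * Es (sn t)) = (∫ t in (0 : ℝ)..1, alf t * rq (sn t)) +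
        ∫ t in (0 : ℝ)..1, alf t * rq (-sn t) := by
      have i1 : IntervalIntegrable (fun t => alf t * rq (sn t)) volume 0 1 :=
        (hc.mul rq_cont).intervalIntegrable _ _
      have i2 : IntervalIntegrable (fun t => alf t * rq (-sn t)) volume 0 1 :=
        (hc.mul rq_cont').intervalIntegrable _ _
      rw [← intervalIntegral.integral_add i1 i2]
      apply intervalIntegral.integral_congr
      intro t _
      simp only
      rw [Es_eq]
      ring
    rw [this, int_sym]
    ring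
  have hE : Continuous fun t => Es (sn t) := by
    have := rq_cont.add rq_cont'
    convert this using 2 with t
    exact Es_eq _
  have hL : Continuous fun t : ℝ => Lp (sn t ^ 2) := Lp_cont.comp (sn_cont.pow 2)
  have h2 : (∫ t in (0 : ℝ)..1, (|cs t| * Lp (sn t ^ 2) + Cp * psi t * 1.54851)) ≤
      ∫ t in (0 : ℝ)..1, alf t * Es (sn t) := by
    apply intervalIntegral.integral_mono_on (by norm_num)
    · apply Continuous.intervalIntegrable
      exact (cs_cont.abs.mul hL).add ((continuous_const.mul psi_contDiff.continuous).mul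
        continuous_const)
    · exact (hc.mul hE).intervalIntegrable _ _
    · intro t _
      obtain ⟨hb1, hb2⟩ := Es_bounds (sn_sq_le t)
      have hE0 : 0 ≤ Es (sn t) := by linarith
      unfold alf
      rw [add_mul]
      apply add_le_add
      · rw [div_mul_eq_mul_div, ← mul_div_assoc']
        exact mul_le_mul (abs_le_acs t) hb1 (Lp_nonneg (sq_nonneg _) (sn_sq_le t)) (acs_pos t).le
      · exact mul_le_mul_of_nonneg_left hb2 (mul_nonneg Cp_pos.le (psi_nonneg t))
  have h3 : (∫ t in (0 : ℝ)..1, (|cs t| * Lp (sn t ^ 2) + Cp * psi t * 1.54851)) =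
      (∫ t in (0 : ℝ)..1, |cs t| * Lp (sn t ^ 2)) + 0.4465 * 1.54851 := by
    have i1 : IntervalIntegrable (fun t => |cs t| * Lp (sn t ^ 2)) volume 0 1 :=
      (cs_cont.abs.mul hL).intervalIntegrable _ _
    have i2 : IntervalIntegrable (fun t => Cp * psi t * 1.54851) volume 0 1 :=
      ((continuous_const.mul psi_contDiff.continuous).mul continuous_const).intervalIntegrable _ _
    rw [intervalIntegral.integral_add i1 i2, intervalIntegral.integral_mul_const,
      intervalIntegral.integral_const_mul, Cp_mul]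
  have h4 := int_lower
  have h5 : (0.5486009 : ℝ) ≤ 2 * Pp 1 / Real.pi := by
    rw [le_div_iff₀ Real.pi_pos]
    have h6 := Real.pi_lt_d6
    have h7 : Pp 1 = (2985930653 / 3465000000) := by unfold Pp; norm_num
    rw [h7]
    linarith
  rw [h1, h3] at h2
  norm_num at h2 h5 ⊢
  linarith

theorem int_key2 : ∫ t in (0 : ℝ)..1, alf t * rt t / 2 < 0.705 := by
  have hc := alf_contDiff.continuous
  have h1 : ∫ t in (0 : ℝ)..1, alf t * rt t / 2 ≤
      ∫ t in (0 : ℝ)..1, ((|cs t| + 1 / 10 ^ 6) / 2 + Cp * psi t * (1.7320512 / 2)) := by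
    apply intervalIntegral.integral_mono_on (by norm_num)
    · exact ((hc.mul rt_contDiff.continuous).div_const 2).intervalIntegrable _ _
    · apply Continuous.intervalIntegrable
      exact ((cs_cont.abs.add continuous_const).div_const 2).add
        ((continuous_const.mul psi_contDiff.continuous).mul continuous_const)
    · intro t _
      have e : alf t * rt t / 2 = acs t / 2 + Cp * (psi t * rt t) / 2 := by
        unfold alf
        have := (rt_pos t).ne'
        field_simp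
      rw [e]
      have h1 := acs_le t
      have h2 := mul_le_mul_of_nonneg_left (psi_mul_rt t) Cp_pos.le
      have h3 : Cp * psi t * (1.7320512 / 2) = Cp * (psi t * 1.7320512) / 2 := by ring
      rw [h3]
      linarith
  have h2 : ∫ t in (0 : ℝ)..1, ((|cs t| + 1 / 10 ^ 6) / 2 + Cp * psi t * (1.7320512 / 2)) =
      (2 / Real.pi + 1 / 10 ^ 6) / 2 + 0.4465 * (1.7320512 / 2) := by
    have i0 : IntervalIntegrable (fun t => |cs t|) volume 0 1 :=
      cs_cont.abs.intervalIntegrable _ _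
    have i1 : IntervalIntegrable (fun t => (|cs t| + 1 / 10 ^ 6) / 2) volume 0 1 :=
      ((cs_cont.abs.add continuous_const).div_const 2).intervalIntegrable _ _
    have i2 : IntervalIntegrable (fun t => Cp * psi t * (1.7320512 / 2)) volume 0 1 :=
      ((continuous_const.mul psi_contDiff.continuous).mul continuous_const).intervalIntegrable _ _
    have i3 : IntervalIntegrable (fun _ : ℝ => (1 / 10 ^ 6 : ℝ)) volume 0 1 :=
      continuous_const.intervalIntegrable _ _
    rw [intervalIntegral.integral_add i1 i2, intervalIntegral.integral_mul_const,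
      intervalIntegral.integral_const_mul, Cp_mul, intervalIntegral.integral_div,
      intervalIntegral.integral_add i0 i3, int_abs_cs, intervalIntegral.integral_const]
    simp
  refine lt_of_le_of_lt h1 ?_
  rw [h2]
  have h3 : 2 / Real.pi ≤ 0.636620 := by
    rw [div_le_iff₀ Real.pi_pos]
    have := Real.pi_gt_d6
    linarith
  norm_num at h3 ⊢
  linarith

/-- the choice of the free function -/
theorem exists_dat : ∃ (D : Dat) (p : ℝ), 0 ≤ p ∧ p < 1 ∧
    (∀ t, cs t ^ 2 ≤ D.al t ^ 2 * (4 - sn t ^ 2)) ∧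
    (1 ≤ p / 2 + ∫ t in (0 : ℝ)..1, D.al t * Real.sqrt (1 - p ^ 2 / (2 + sn t))) ∧
    (1 ≤ p / 2 + ∫ t in (0 : ℝ)..1, D.al t * Real.sqrt (1 - p ^ 2 / (2 - sn t))) ∧
    (1 / 2 ≤ ∫ t in (0 : ℝ)..1, D.al t) ∧
    ∫ t in (0 : ℝ)..1, D.al t * Real.sqrt (4 - sn t ^ 2) / 2 < 0.705 := by
  have hc := alf_contDiff.continuous
  refine ⟨theDat, 0.76, by norm_num, by norm_num, ?_, int_key, ?_, ?_, int_key2⟩
  · intro t
    change cs t ^ 2 ≤ alf t ^ 2 * (4 - sn t ^ 2)
    have h1 : acs t / rt t ≤ alf t := by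
      have := mul_nonneg Cp_pos.le (psi_nonneg t)
      unfold alf
      linarith
    have h2 : acs t ≤ alf t * rt t := by
      rwa [div_le_iff₀ (rt_pos t)] at h1
    have h3 : |cs t| ^ 2 ≤ (alf t * rt t) ^ 2 :=
      pow_le_pow_left₀ (abs_nonneg _) (le_trans (abs_le_acs t) h2) 2
    rw [sq_abs, mul_pow] at h3
    have h4 : rt t ^ 2 = 4 - sn t ^ 2 := Real.sq_sqrt (four_sub_pos t).le
    rw [← h4]
    exact h3
  · have h := int_key
    rw [← int_sym] at h
    exact h
  · change (1 / 2 : ℝ) ≤ ∫ t in (0 : ℝ)..1, alf t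
    have h1 : (∫ t in (0 : ℝ)..1, (|cs t| / 2 + Cp * psi t)) ≤ ∫ t in (0 : ℝ)..1, alf t := by
      apply intervalIntegral.integral_mono_on (by norm_num)
      · exact ((cs_cont.abs.div_const 2).add
          (continuous_const.mul psi_contDiff.continuous)).intervalIntegrable _ _
      · exact hc.intervalIntegrable _ _
      · intro t _
        unfold alf
        have : |cs t| / 2 ≤ acs t / rt t := by
          rw [div_le_div_iff₀ (by norm_num) (rt_pos t)]
          exact mul_le_mul (abs_le_acs t) (rt_le t) (rt_pos t).le (acs_pos t).le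
        linarith
    have i1 : IntervalIntegrable (fun t => |cs t| / 2) volume 0 1 :=
      (cs_cont.abs.div_const 2).intervalIntegrable _ _
    have i2 : IntervalIntegrable (fun t => Cp * psi t) volume 0 1 :=
      (continuous_const.mul psi_contDiff.continuous).intervalIntegrable _ _
    rw [intervalIntegral.integral_add i1 i2,
      intervalIntegral.integral_const_mul, Cp_mul, intervalIntegral.integral_div, int_abs_cs] at h1
    have h3 : (0.5 : ℝ) ≤ 2 / Real.pi := by
      rw [le_div_iff₀ Real.pi_pos]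
      have := Real.pi_lt_d6
      linarith
    norm_num at h1 h3 ⊢
    linarith

end Pool.Agent.Lib.MP_c3a607_gt
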