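import Mathlib

/-!
# Riemannian metrics on the torus `T^d = ℝ^d / ℤ^d`: volume, systole, optimal systolic ratio
-/

set_option autoImplicit false

open scoped ContDiff Matrix
open MeasureTheory

namespace Pool.Agent.Lib.MP_c3a607_gt

/-- A smooth Riemannian metric on the torus `T^d = ℝ^d/ℤ^d`, written on the universal cover: a
smooth, `ℤ^d`-periodic field of positive definite symmetric matrices on `ℝ^d`. -/
structure TorusMetric (d : ℕ) where
  /-- the matrix of the metric at a point -/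
  g : (Fin d → ℝ) → Matrix (Fin d) (Fin d) ℝ
  smooth : ∀ i j, ContDiff ℝ ∞ fun x => g x i j
  periodic : ∀ (x : Fin d → ℝ) (n : Fin d → ℤ), g (fun i => x i + n i) = g x
  posDef : ∀ x, (g x).PosDef

/-- The Riemannian volume of `(T^d, G)`. -/
noncomputable def vol {d : ℕ} (G : TorusMetric d) : ℝ :=
  ∫ x in Set.Icc (0 : Fin d → ℝ) 1, Real.sqrt (G.g x).det

/-- The `G`-length of the curve `γ` on `[0,1]`. -/
noncomputable def len {d : ℕ} (G : TorusMetric d) (γ : ℝ → Fin d → ℝ) : ℝ :=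
  ∫ t in (0 : ℝ)..1, Real.sqrt (deriv γ t ⬝ᵥ (G.g (γ t) *ᵥ deriv γ t))

/-- The systole: the infimum of the lengths of the closed curves in `T^d` that are not
null-homotopic. Such a curve is the image of a `C¹` map `γ : [0,1] → ℝ^d` with
`γ 1 = γ 0 + n`, `n ∈ ℤ^d`, `n ≠ 0` (a piecewise `C¹` curve has a `C¹` parametrisation). -/
noncomputable def sys {d : ℕ} (G : TorusMetric d) : ℝ :=
  sInf {ℓ : ℝ | ∃ (γ : ℝ → Fin d → ℝ) (n : Fin d → ℤ), ContDiff ℝ 1 γ ∧ n ≠ 0 ∧
    (∀ i, γ 1 i = γ 0 i + n i) ∧ ℓ = len G γ}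

/-- The optimal systolic ratio of `T^d`. -/
noncomputable def minSys (d : ℕ) : ℝ :=
  sInf {r : ℝ | ∃ G : TorusMetric d, r = vol G / sys G ^ d}

/-! ## The example -/

/-- `sin (2 π t)` -/
noncomputable def sn (t : ℝ) : ℝ := Real.sin (2 * Real.pi * t)

/-- `cos (2 π t)` -/
noncomputable def cs (t : ℝ) : ℝ := Real.cos (2 * Real.pi * t)

/-- the free function of the example -/
structure Dat where
  /-- the length element in the first direction -/
  al : ℝ → ℝ
  smooth : ContDiff ℝ ∞ al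
  per : ∀ t, al (t + 1) = al t
  pos : ∀ t, 0 < al t

/-- the matrix of the metric
`al² du₀² + (2 + s) (du₀ + du₁ + du₂)²/4 + (2 - s) (du₁ - du₂)²/4`, `s = sin (2 π u₀)` -/
noncomputable def mat (D : Dat) (t : ℝ) : Matrix (Fin 3) (Fin 3) ℝ :=
  !![D.al t ^ 2 + (2 + sn t) / 4, (2 + sn t) / 4, (2 + sn t) / 4;
     (2 + sn t) / 4, 1, sn t / 2;
     (2 + sn t) / 4, sn t / 2, 1]

end Pool.Agent.Lib.MP_c3a607_gt
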