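import Pool.Agent.Lib.MP_c3a607_gt.Defs

set_option autoImplicit false

open scoped ContDiff Matrix
open MeasureTheory

namespace Pool.Agent.Lib.MP_c3a607_gt

private theorem Ex_sn_sq (t : ℝ) : -1 ≤ sn t ∧ sn t ≤ 1 :=
  ⟨Real.neg_one_le_sin _, Real.sin_le_one _⟩

private theorem Ex_sn_add (t : ℝ) (n : ℤ) : sn (t + n) = sn t := by
  unfold sn
  rw [mul_add, mul_comm (2 * Real.pi) (n : ℝ)]
  exact Real.sin_add_int_mul_two_pi _ n

private theorem Ex_al_add (D : Dat) (t : ℝ) (n : ℤ) : D.al (t + n) = D.al t := by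
  have h : Function.Periodic D.al 1 := D.per
  have h2 := h.int_mul n t
  rwa [mul_one] at h2

private theorem Ex_sn_smooth : ContDiff ℝ ∞ sn := by
  unfold sn
  exact Real.contDiff_sin.comp (contDiff_const.mul contDiff_id)

theorem mat_quad (D : Dat) (t : ℝ) (v : Fin 3 → ℝ) : v ⬝ᵥ (mat D t *ᵥ v) =
    D.al t ^ 2 * v 0 ^ 2 + (2 + sn t) * ((v 0 + v 1 + v 2) / 2) ^ 2 +
      (2 - sn t) * ((v 1 - v 2) / 2) ^ 2 := by
  simp [mat, Matrix.mulVec, dotProduct, Fin.sum_univ_succ]
  ring

theorem mat_det (D : Dat) (t : ℝ) : (mat D t).det = D.al t ^ 2 * (4 - sn t ^ 2) / 4 := by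
  rw [Matrix.det_fin_three]
  simp [mat]
  ring

theorem mat_posDef (D : Dat) (t : ℝ) : (mat D t).PosDef := by
  refine Matrix.PosDef.of_dotProduct_mulVec_pos ?_ ?_
  · ext i j
    fin_cases i <;> fin_cases j <;> simp [mat]
  · intro v hv
    have hs := Ex_sn_sq t
    have ha := D.pos t
    rw [star_trivial, mat_quad]
    have h1 : 0 ≤ D.al t ^ 2 * v 0 ^ 2 := by positivity
    have h2 : 0 ≤ (2 + sn t) * ((v 0 + v 1 + v 2) / 2) ^ 2 :=
      mul_nonneg (by linarith [hs.1]) (sq_nonneg _)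
    have h3 : 0 ≤ (2 - sn t) * ((v 1 - v 2) / 2) ^ 2 :=
      mul_nonneg (by linarith [hs.2]) (sq_nonneg _)
    by_contra hcon
    rw [not_lt] at hcon
    have e1 : D.al t ^ 2 * v 0 ^ 2 = 0 := by linarith
    have e2 : (2 + sn t) * ((v 0 + v 1 + v 2) / 2) ^ 2 = 0 := by linarith
    have e3 : (2 - sn t) * ((v 1 - v 2) / 2) ^ 2 = 0 := by linarith
    have g1 : v 0 = 0 := by
      rcases mul_eq_zero.1 e1 with h | h
      · exact absurd h (pow_pos ha 2).ne'
      · exact pow_eq_zero_iff two_ne_zero |>.1 h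
    have g2 : (v 0 + v 1 + v 2) / 2 = 0 := by
      rcases mul_eq_zero.1 e2 with h | h
      · exfalso
        linarith [hs.1]
      · exact pow_eq_zero_iff two_ne_zero |>.1 h
    have g3 : (v 1 - v 2) / 2 = 0 := by
      rcases mul_eq_zero.1 e3 with h | h
      · exfalso
        linarith [hs.2]
      · exact pow_eq_zero_iff two_ne_zero |>.1 h
    refine hv ?_
    ext i
    fin_cases i
    · exact g1
    · show v 1 = 0
      linarith
    · show v 2 = 0
      linarith

/-- the metric of the example -/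
noncomputable def ex (D : Dat) : TorusMetric 3 where
  g := fun x => mat D (x 0)
  smooth := by
    have h0 : ContDiff ℝ ∞ fun x : Fin 3 → ℝ => x 0 := contDiff_apply ℝ ℝ 0
    have ha : ContDiff ℝ ∞ fun x : Fin 3 → ℝ => D.al (x 0) := D.smooth.comp h0
    have hs : ContDiff ℝ ∞ fun x : Fin 3 → ℝ => sn (x 0) := Ex_sn_smooth.comp h0
    have hp : ContDiff ℝ ∞ fun x : Fin 3 → ℝ => (2 + sn (x 0)) / 4 :=
      (contDiff_const.add hs).div_const 4
    have hh : ContDiff ℝ ∞ fun x : Fin 3 → ℝ => sn (x 0) / 2 := hs.div_const 2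
    intro i j
    fin_cases i <;> fin_cases j
    · exact (ha.pow 2).add hp
    · exact hp
    · exact hp
    · exact hp
    · exact contDiff_const
    · exact hh
    · exact hp
    · exact hh
    · exact contDiff_const
  periodic := by
    intro x n
    show mat D (x 0 + n 0) = mat D (x 0)
    unfold mat
    rw [Ex_sn_add, Ex_al_add]
  posDef := fun x => mat_posDef D (x 0)

theorem vol_ex (D : Dat) : vol (ex D) = ∫ t in (0 : ℝ)..1, D.al t * Real.sqrt (4 - sn t ^ 2) / 2 := by
  have hf : ∀ t, Real.sqrt (mat D t).det = D.al t * Real.sqrt (4 - sn t ^ 2) / 2 := by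
    intro t
    have ha := D.pos t
    rw [mat_det, show D.al t ^ 2 * (4 - sn t ^ 2) / 4 = (D.al t / 2) ^ 2 * (4 - sn t ^ 2) by ring,
      Real.sqrt_mul (sq_nonneg _), Real.sqrt_sq (by positivity)]
    ring
  have hcont : Continuous fun t => D.al t * Real.sqrt (4 - sn t ^ 2) / 2 := by
    have h1 := D.smooth.continuous
    have h2 := Ex_sn_smooth.continuous
    exact (h1.mul (Real.continuous_sqrt.comp (continuous_const.sub (h2.pow 2)))).div_const 2
  have : IsProbabilityMeasure ((volume : Measure ℝ).restrict (Set.Icc (0 : ℝ) 1)) :=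
    ⟨by simp⟩
  have hm : (volume : Measure (Fin 3 → ℝ)).restrict (Set.Icc (0 : Fin 3 → ℝ) 1) =
      Measure.pi fun _ : Fin 3 => (volume : Measure ℝ).restrict (Set.Icc (0 : ℝ) 1) := by
    rw [← Set.pi_univ_Icc, volume_pi, Measure.restrict_pi_pi]
    rfl
  have hv : vol (ex D) = ∫ x in Set.Icc (0 : Fin 3 → ℝ) 1,
      (fun t => D.al t * Real.sqrt (4 - sn t ^ 2) / 2) (x 0) := by
    unfold vol
    refine integral_congr_ae (Filter.Eventually.of_forall fun x => ?_)
    exact hf (x 0)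
  have he := integral_comp_eval (μ := fun _ : Fin 3 => (volume : Measure ℝ).restrict
    (Set.Icc (0 : ℝ) 1)) (i := (0 : Fin 3))
    (f := fun t : ℝ => D.al t * Real.sqrt (4 - sn t ^ 2) / 2) hcont.aestronglyMeasurable
  rw [hv, hm]
  refine he.trans ?_
  rw [intervalIntegral.integral_of_le zero_le_one, integral_Icc_eq_integral_Ioc]

end Pool.Agent.Lib.MP_c3a607_gt
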