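import Pool.Agent.Lib.MP_c3a607_gt.Defs

set_option autoImplicit false

open scoped ContDiff Matrix
open MeasureTheory

namespace Pool.Agent.Lib.MP_c3a607_gt

/-- ordered, all off-diagonal entries of one sign `+` -/
private theorem Fl_pos {a b c r s t : ℝ} (ha : 0 < a) (hab : a ≤ b) (hbc : b ≤ c)
    (hr : 0 ≤ r) (hs : 0 ≤ s) (ht : 0 ≤ t) (hrb : 2 * r ≤ b) (hsa : 2 * s ≤ a) (hta : 2 * t ≤ a) :
    a * b * c ≤ 2 * (a * b * c + 2 * (r * s * t) - a * r ^ 2 - b * s ^ 2 - c * t ^ 2) := by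
  have hb : 0 < b := lt_of_lt_of_le ha hab
  have hc : 0 < c := lt_of_lt_of_le hb hbc
  -- the concave part
  have e1 : 0 ≤ a * (r * (b - 2 * r)) := by
    have := mul_nonneg hr (sub_nonneg.2 hrb); positivity
  have e2 : 0 ≤ b * (s * (a - 2 * s)) := by
    have := mul_nonneg hs (sub_nonneg.2 hsa); positivity
  have e3 : 0 ≤ c * (t * (a - 2 * t)) := by
    have := mul_nonneg ht (sub_nonneg.2 hta); positivity
  -- multilinear part
  have key : 0 ≤ a * b * c + 4 * (r * s * t) - a * b * r - a * b * s - a * c * t := by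
    -- linear in `s`: check `s = 0` and `s = a / 2`
    have h0 : 0 ≤ a * b * c - a * b * r - a * c * t := by
      nlinarith [mul_nonneg ha.le (mul_nonneg hb.le (sub_nonneg.2 hbc)),
        mul_nonneg ha.le (mul_nonneg hc.le (sub_nonneg.2 hab)),
        mul_nonneg (mul_nonneg ha.le hb.le) (sub_nonneg.2 hrb),
        mul_nonneg (mul_nonneg ha.le hc.le) (sub_nonneg.2 hta)]
    have h1 : 0 ≤ a * b * c + 2 * (a * r * t) - a * b * r - a * b * (a / 2) - a * c * t := by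
      -- linear in `t`
      have h2 : 0 ≤ a * b * c - a * b * r - a * b * (a / 2) := by
        nlinarith [mul_nonneg (mul_nonneg ha.le hb.le) (sub_nonneg.2 hrb),
          mul_nonneg (mul_nonneg ha.le hb.le) (sub_nonneg.2 hbc),
          mul_nonneg (mul_nonneg ha.le hb.le) (sub_nonneg.2 hab)]
      have h3 : 0 ≤ a * b * c + a * a * r - a * b * r - a * b * (a / 2) - a * c * (a / 2) := by
        -- linear in `r`
        nlinarith [mul_nonneg (mul_nonneg ha.le (sub_nonneg.2 hrb)) (sub_nonneg.2 hab),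
          mul_nonneg ha.le (mul_nonneg hb.le (sub_nonneg.2 hbc)),
          mul_nonneg ha.le (mul_nonneg hc.le (sub_nonneg.2 hab)),
          mul_nonneg ha.le (mul_nonneg hr (sub_nonneg.2 hab)),
          mul_nonneg ha.le (mul_nonneg ha.le (sub_nonneg.2 hab)),
          mul_nonneg ha.le (mul_nonneg ha.le (sub_nonneg.2 hbc))]
      have h4 : a * (a * b * c + 2 * (a * r * t) - a * b * r - a * b * (a / 2) - a * c * t) =
          (a - 2 * t) * (a * b * c - a * b * r - a * b * (a / 2)) +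
          2 * t * (a * b * c + a * a * r - a * b * r - a * b * (a / 2) - a * c * (a / 2)) := by
        ring
      have h5 : 0 ≤ a * (a * b * c + 2 * (a * r * t) - a * b * r - a * b * (a / 2) - a * c * t) := by
        rw [h4]
        exact add_nonneg (mul_nonneg (sub_nonneg.2 hta) h2) (mul_nonneg (by linarith) h3)
      exact nonneg_of_mul_nonneg_right h5 ha
    have h6 : a * (a * b * c + 4 * (r * s * t) - a * b * r - a * b * s - a * c * t) =
        (a - 2 * s) * (a * b * c - a * b * r - a * c * t) +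
        2 * s * (a * b * c + 2 * (a * r * t) - a * b * r - a * b * (a / 2) - a * c * t) := by
      ring
    have h7 : 0 ≤ a * (a * b * c + 4 * (r * s * t) - a * b * r - a * b * s - a * c * t) := by
      rw [h6]
      exact add_nonneg (mul_nonneg (sub_nonneg.2 hsa) h0) (mul_nonneg (by linarith) h1)
    exact nonneg_of_mul_nonneg_right h7 ha
  nlinarith [e1, e2, e3, key]

/-- ordered, all off-diagonal entries of one sign `-` -/
private theorem Fl_neg {a b c r s t : ℝ} (ha : 0 < a) (hab : a ≤ b) (hbc : b ≤ c)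
    (hr : 0 ≤ r) (hs : 0 ≤ s) (ht : 0 ≤ t) (hrb : 2 * r ≤ b) (hsa : 2 * s ≤ a) (hta : 2 * t ≤ a)
    (hsum : 2 * (r + s + t) ≤ a + b) :
    a * b * c ≤ 2 * (a * b * c - 2 * (r * s * t) - a * r ^ 2 - b * s ^ 2 - c * t ^ 2) := by
  obtain ⟨x, hx, rfl⟩ : ∃ x, 0 ≤ x ∧ b = a + x := ⟨b - a, by linarith, by ring⟩
  obtain ⟨y, hy, rfl⟩ : ∃ y, 0 ≤ y ∧ c = a + x + y := ⟨c - (a + x), by linarith, by ring⟩
  have hmono : ∀ R : ℝ, r ≤ R → 4 * (r * s * t) + 2 * a * r ^ 2 ≤
      4 * (R * s * t) + 2 * a * R ^ 2 := by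
    intro R hR
    gcongr
  rcases le_total (2 * (s + t)) a with h | h
  · obtain ⟨o, ho, ha'⟩ : ∃ o, 0 ≤ o ∧ a = 2 * (s + t + o) :=
      ⟨a / 2 - s - t, by linarith, by ring⟩
    have h1 := hmono ((a + x) / 2) (by linarith)
    have h2 : 0 ≤ a * (a + x) * (a + x + y) - (4 * ((a + x) / 2 * s * t) +
        2 * a * ((a + x) / 2) ^ 2) - 2 * (a + x) * s ^ 2 - 2 * (a + x + y) * t ^ 2 := by
      have : a * (a + x) * (a + x + y) - (4 * ((a + x) / 2 * s * t) +
          2 * a * ((a + x) / 2) ^ 2) - 2 * (a + x) * s ^ 2 - 2 * (a + x + y) * t ^ 2 =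
          20 * o * s * t + 8 * o * s * x + 8 * o * s * y + 8 * o * s ^ 2 + 8 * o * t * x +
          8 * o * t * y + 8 * o * t ^ 2 + 2 * o * x * y + o * x ^ 2 + 12 * o ^ 2 * s +
          12 * o ^ 2 * t + 4 * o ^ 2 * x + 4 * o ^ 2 * y + 4 * o ^ 3 + 6 * s * t * x +
          8 * s * t * y + 4 * s * t ^ 2 + 2 * s * x * y + s * x ^ 2 + 4 * s ^ 2 * t +
          2 * s ^ 2 * x + 4 * s ^ 2 * y + 2 * t * x * y + t * x ^ 2 + 2 * t ^ 2 * x +
          2 * t ^ 2 * y := by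
        rw [ha']; ring
      rw [this]; positivity
    linarith
  · obtain ⟨u, hu, hsu⟩ : ∃ u, 0 ≤ u ∧ s = a / 2 - u := ⟨a / 2 - s, by linarith, by ring⟩
    obtain ⟨v, hv, htv⟩ : ∃ v, 0 ≤ v ∧ t = a / 2 - v := ⟨a / 2 - t, by linarith, by ring⟩
    obtain ⟨o, ho, ha'⟩ : ∃ o, 0 ≤ o ∧ a = 2 * (u + v + o) :=
      ⟨a / 2 - u - v, by linarith, by ring⟩
    have h1 := hmono (x / 2 + u + v) (by linarith)
    have h2 : 0 ≤ a * (a + x) * (a + x + y) - (4 * ((x / 2 + u + v) * s * t) +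
        2 * a * (x / 2 + u + v) ^ 2) - 2 * (a + x) * s ^ 2 - 2 * (a + x + y) * t ^ 2 := by
      have : a * (a + x) * (a + x + y) - (4 * ((x / 2 + u + v) * s * t) +
          2 * a * (x / 2 + u + v) ^ 2) - 2 * (a + x) * s ^ 2 - 2 * (a + x + y) * t ^ 2 =
          16 * o * u * v + 6 * o * u * x + 4 * o * u * y + 4 * o * u ^ 2 + 6 * o * v * x +
          8 * o * v * y + 4 * o * v ^ 2 + 2 * o * x * y + o * x ^ 2 + 4 * o ^ 2 * u +
          4 * o ^ 2 * v + 2 * o ^ 2 * x + 2 * o ^ 2 * y + 6 * u * v * x + 8 * u * v * y +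
          4 * u * v ^ 2 + 2 * u * x * y + u * x ^ 2 + 4 * u ^ 2 * v + 2 * u ^ 2 * x +
          2 * u ^ 2 * y + 2 * v * x * y + v * x ^ 2 + 2 * v ^ 2 * x + 4 * v ^ 2 * y := by
        rw [hsu, htv, ha']; ring
      rw [this]; positivity
    linarith

private theorem Fl_pos' {a b c r s t : ℝ} (ha : 0 < a) (hb : 0 < b) (hc : 0 < c)
    (hr : 0 ≤ r) (hs : 0 ≤ s) (ht : 0 ≤ t) (h1 : 2 * r ≤ b) (h2 : 2 * r ≤ c) (h3 : 2 * s ≤ a)
    (h4 : 2 * s ≤ c) (h5 : 2 * t ≤ a) (h6 : 2 * t ≤ b) :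
    a * b * c ≤ 2 * (a * b * c + 2 * (r * s * t) - a * r ^ 2 - b * s ^ 2 - c * t ^ 2) := by
  rcases le_total a b with hab | hab <;> rcases le_total b c with hbc | hbc <;>
    rcases le_total a c with hac | hac
  · linarith [Fl_pos ha hab hbc hr hs ht h1 h3 h5]
  · linarith [Fl_pos ha hab hbc hr hs ht h1 h3 h5]
  · linarith [Fl_pos ha hac hbc hr ht hs h2 h5 h3]
  · linarith [Fl_pos hc hac hab ht hr hs h5 h2 h4]
  · linarith [Fl_pos hb hab hac hs hr ht h3 h1 h6]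
  · linarith [Fl_pos hb hbc hac hs ht hr h4 h6 h1]
  · linarith [Fl_pos hc hbc hab ht hs hr h6 h4 h2]
  · linarith [Fl_pos hc hbc hab ht hs hr h6 h4 h2]

private theorem Fl_neg' {a b c r s t : ℝ} (ha : 0 < a) (hb : 0 < b) (hc : 0 < c)
    (hr : 0 ≤ r) (hs : 0 ≤ s) (ht : 0 ≤ t) (h1 : 2 * r ≤ b) (h2 : 2 * r ≤ c) (h3 : 2 * s ≤ a)
    (h4 : 2 * s ≤ c) (h5 : 2 * t ≤ a) (h6 : 2 * t ≤ b) (hab' : 2 * (r + s + t) ≤ a + b)
    (hbc' : 2 * (r + s + t) ≤ b + c) (hac' : 2 * (r + s + t) ≤ a + c) :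
    a * b * c ≤ 2 * (a * b * c - 2 * (r * s * t) - a * r ^ 2 - b * s ^ 2 - c * t ^ 2) := by
  rcases le_total a b with hab | hab <;> rcases le_total b c with hbc | hbc <;>
    rcases le_total a c with hac | hac
  · linarith [Fl_neg ha hab hbc hr hs ht h1 h3 h5 (by linarith)]
  · linarith [Fl_neg ha hab hbc hr hs ht h1 h3 h5 (by linarith)]
  · linarith [Fl_neg ha hac hbc hr ht hs h2 h5 h3 (by linarith)]
  · linarith [Fl_neg hc hac hab ht hr hs h5 h2 h4 (by linarith)]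
  · linarith [Fl_neg hb hab hac hs hr ht h3 h1 h6 (by linarith)]
  · linarith [Fl_neg hb hbc hac hs ht hr h4 h6 h1 (by linarith)]
  · linarith [Fl_neg hc hbc hab ht hs hr h6 h4 h2 (by linarith)]
  · linarith [Fl_neg hc hbc hab ht hs hr h6 h4 h2 (by linarith)]

/-- The algebraic inequality for a trace minimal Gram matrix. -/
private theorem Fl_alg {a b c r s t : ℝ} (ha : 0 < a) (hb : 0 < b) (hc : 0 < c)
    (H1 : ∀ x y : ℤ, 0 ≤ b * x ^ 2 + c * y ^ 2 + 2 * t * x + 2 * s * y + 2 * r * x * y)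
    (H2 : ∀ x y : ℤ, 0 ≤ a * x ^ 2 + c * y ^ 2 + 2 * t * x + 2 * r * y + 2 * s * x * y)
    (H3 : ∀ x y : ℤ, 0 ≤ a * x ^ 2 + b * y ^ 2 + 2 * s * x + 2 * r * y + 2 * t * x * y) :
    a * b * c ≤ 2 * (a * b * c + 2 * (r * s * t) - a * r ^ 2 - b * s ^ 2 - c * t ^ 2) := by
  have t1 := H1 1 0
  have t2 := H1 (-1) 0
  have t3 := H2 1 0
  have t4 := H2 (-1) 0
  have s1 := H1 0 1
  have s2 := H1 0 (-1)
  have s3 := H3 1 0
  have s4 := H3 (-1) 0
  have r1 := H2 0 1
  have r2 := H2 0 (-1)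
  have r3 := H3 0 1
  have r4 := H3 0 (-1)
  have u1 := H1 1 1
  have u2 := H1 1 (-1)
  have u3 := H1 (-1) 1
  have u4 := H1 (-1) (-1)
  have v1 := H2 1 1
  have v2 := H2 1 (-1)
  have v3 := H2 (-1) 1
  have v4 := H2 (-1) (-1)
  have w1 := H3 1 1
  have w2 := H3 1 (-1)
  have w3 := H3 (-1) 1
  have w4 := H3 (-1) (-1)
  push_cast at *
  have habs : ∀ z : ℝ, |z| ^ 2 = z ^ 2 := fun z => sq_abs z
  have hr := abs_nonneg r
  have hs := abs_nonneg s
  have ht := abs_nonneg t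
  rcases le_or_gt 0 (r * s * t) with h | h
  · have he : r * s * t = |r| * |s| * |t| := by
      rw [← abs_mul, ← abs_mul, abs_of_nonneg h]
    have := Fl_pos' ha hb hc hr hs ht
      (by rcases abs_cases r with ⟨e, _⟩ | ⟨e, _⟩ <;> rw [e] <;> linarith)
      (by rcases abs_cases r with ⟨e, _⟩ | ⟨e, _⟩ <;> rw [e] <;> linarith)
      (by rcases abs_cases s with ⟨e, _⟩ | ⟨e, _⟩ <;> rw [e] <;> linarith)
      (by rcases abs_cases s with ⟨e, _⟩ | ⟨e, _⟩ <;> rw [e] <;> linarith)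
      (by rcases abs_cases t with ⟨e, _⟩ | ⟨e, _⟩ <;> rw [e] <;> linarith)
      (by rcases abs_cases t with ⟨e, _⟩ | ⟨e, _⟩ <;> rw [e] <;> linarith)
    rw [habs, habs, habs, ← he] at this
    exact this
  · have he : r * s * t = -(|r| * |s| * |t|) := by
      rw [← abs_mul, ← abs_mul, abs_of_neg h]; ring
    have hsum : 2 * (|r| + |s| + |t|) ≤ a + b ∧ 2 * (|r| + |s| + |t|) ≤ b + c ∧
        2 * (|r| + |s| + |t|) ≤ a + c := by
      rcases lt_or_ge 0 r with hr0 | hr0 <;> rcases lt_or_ge 0 s with hs0 | hs0 <;>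
        rcases lt_or_ge 0 t with ht0 | ht0
      · exfalso
        have := mul_pos (mul_pos hr0 hs0) ht0
        linarith
      · rw [abs_of_pos hr0, abs_of_pos hs0, abs_of_nonpos ht0]
        refine ⟨?_, ?_, ?_⟩ <;> linarith
      · rw [abs_of_pos hr0, abs_of_nonpos hs0, abs_of_pos ht0]
        refine ⟨?_, ?_, ?_⟩ <;> linarith
      · exfalso
        have := mul_nonneg hr0.le (mul_nonneg (neg_nonneg.2 hs0) (neg_nonneg.2 ht0))
        nlinarith
      · rw [abs_of_nonpos hr0, abs_of_pos hs0, abs_of_pos ht0]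
        refine ⟨?_, ?_, ?_⟩ <;> linarith
      · exfalso
        have := mul_nonneg hs0.le (mul_nonneg (neg_nonneg.2 hr0) (neg_nonneg.2 ht0))
        nlinarith
      · exfalso
        have := mul_nonneg ht0.le (mul_nonneg (neg_nonneg.2 hs0) (neg_nonneg.2 hr0))
        nlinarith
      · rw [abs_of_nonpos hr0, abs_of_nonpos hs0, abs_of_nonpos ht0]
        refine ⟨?_, ?_, ?_⟩ <;> linarith
    have := Fl_neg' ha hb hc hr hs ht
      (by rcases abs_cases r with ⟨e, _⟩ | ⟨e, _⟩ <;> rw [e] <;> linarith)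
      (by rcases abs_cases r with ⟨e, _⟩ | ⟨e, _⟩ <;> rw [e] <;> linarith)
      (by rcases abs_cases s with ⟨e, _⟩ | ⟨e, _⟩ <;> rw [e] <;> linarith)
      (by rcases abs_cases s with ⟨e, _⟩ | ⟨e, _⟩ <;> rw [e] <;> linarith)
      (by rcases abs_cases t with ⟨e, _⟩ | ⟨e, _⟩ <;> rw [e] <;> linarith)
      (by rcases abs_cases t with ⟨e, _⟩ | ⟨e, _⟩ <;> rw [e] <;> linarith)
      hsum.1 hsum.2.1 hsum.2.2
    rw [habs, habs, habs] at this
    rw [he]
    linarith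

/-- lower bound of a positive definite form by the sup norm -/
private theorem Fl_lower (A : Matrix (Fin 3) (Fin 3) ℝ) (hA : A.PosDef) :
    ∃ κ : ℝ, 0 < κ ∧ ∀ x : Fin 3 → ℝ, κ * ‖x‖ ^ 2 ≤ x ⬝ᵥ (A *ᵥ x) := by
  have hcont : Continuous fun x : Fin 3 → ℝ => x ⬝ᵥ (A *ᵥ x) := by
    unfold dotProduct Matrix.mulVec dotProduct
    fun_prop
  have hcomp : IsCompact (Metric.sphere (0 : Fin 3 → ℝ) 1) := isCompact_sphere _ _
  have hne : (Metric.sphere (0 : Fin 3 → ℝ) 1).Nonempty :=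
    NormedSpace.sphere_nonempty.2 zero_le_one
  obtain ⟨x₀, hx₀, hmin⟩ := hcomp.exists_isMinOn hne hcont.continuousOn
  have hx₀' : x₀ ≠ 0 := by
    rintro rfl
    rw [mem_sphere_zero_iff_norm, norm_zero] at hx₀
    exact zero_ne_one hx₀
  refine ⟨x₀ ⬝ᵥ (A *ᵥ x₀), ?_, ?_⟩
  · have := hA.dotProduct_mulVec_pos hx₀'
    simpa using this
  · intro x
    by_cases hx : x = 0
    · subst hx
      simp
    · have hn : ‖x‖ ≠ 0 := norm_ne_zero_iff.2 hx
      have h1 : (‖x‖⁻¹ • x) ∈ Metric.sphere (0 : Fin 3 → ℝ) 1 := by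
        rw [mem_sphere_zero_iff_norm, norm_smul, norm_inv, norm_norm, inv_mul_cancel₀ hn]
      have h2 := hmin h1
      simp only [Matrix.mulVec_smul, smul_dotProduct, dotProduct_smul, smul_eq_mul,
        Set.mem_ofPred_eq] at h2
      have h3 : 0 < ‖x‖ ^ 2 := by positivity
      calc (x₀ ⬝ᵥ (A *ᵥ x₀)) * ‖x‖ ^ 2 ≤ (‖x‖⁻¹ * (‖x‖⁻¹ * (x ⬝ᵥ (A *ᵥ x)))) * ‖x‖ ^ 2 :=
            mul_le_mul_of_nonneg_right h2 h3.le
        _ = x ⬝ᵥ (A *ᵥ x) := by field_simp

/-- Gram matrix of the columns of an integer matrix -/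
private noncomputable def FlG (A : Matrix (Fin 3) (Fin 3) ℝ) (U : Matrix (Fin 3) (Fin 3) ℤ) :
    Matrix (Fin 3) (Fin 3) ℝ :=
  (U.map (Int.cast : ℤ → ℝ))ᵀ * A * U.map (Int.cast : ℤ → ℝ)

private theorem FlG_diag (A : Matrix (Fin 3) (Fin 3) ℝ) (U : Matrix (Fin 3) (Fin 3) ℤ)
    (i : Fin 3) : FlG A U i i = (fun k => (U k i : ℝ)) ⬝ᵥ (A *ᵥ fun k => (U k i : ℝ)) := by
  unfold FlG
  simp only [Matrix.mul_apply, dotProduct, Matrix.mulVec, Matrix.transpose_apply, Matrix.map_apply,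
    Fin.sum_univ_three]
  ring

private theorem FlG_mul (A : Matrix (Fin 3) (Fin 3) ℝ) (U E : Matrix (Fin 3) (Fin 3) ℤ) :
    FlG A (U * E) = (E.map (Int.cast : ℤ → ℝ))ᵀ * FlG A U * E.map (Int.cast : ℤ → ℝ) := by
  unfold FlG
  have h : (U * E).map (Int.cast : ℤ → ℝ) = U.map (Int.cast : ℤ → ℝ) * E.map (Int.cast : ℤ → ℝ) :=
    Matrix.map_mul (f := Int.castRingHom ℝ)
  rw [h, Matrix.transpose_mul]
  simp only [Matrix.mul_assoc]

private theorem FlG_det (A : Matrix (Fin 3) (Fin 3) ℝ) (U : Matrix (Fin 3) (Fin 3) ℤ)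
    (hU : U.det = 1 ∨ U.det = -1) : (FlG A U).det = A.det := by
  unfold FlG
  have h : (U.map (Int.cast : ℤ → ℝ)).det = ((U.det : ℤ) : ℝ) :=
    (Int.castRingHom ℝ).map_det U |>.symm
  rw [Matrix.det_mul, Matrix.det_mul, Matrix.det_transpose, h]
  rcases hU with hU | hU <;> rw [hU] <;> push_cast <;> ring

private theorem FlG_symm (A : Matrix (Fin 3) (Fin 3) ℝ) (hA : A.PosDef)
    (U : Matrix (Fin 3) (Fin 3) ℤ) (i j : Fin 3) : FlG A U i j = FlG A U j i := by
  have h1 : Aᵀ = A := by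
    have := hA.1
    unfold Matrix.IsHermitian at this
    rwa [Matrix.conjTranspose_eq_transpose_of_trivial] at this
  have h2 : (FlG A U)ᵀ = FlG A U := by
    unfold FlG
    rw [Matrix.transpose_mul, Matrix.transpose_mul, Matrix.transpose_transpose, h1, Matrix.mul_assoc]
  conv_lhs => rw [← h2]
  rfl

/-- a trace minimal unimodular matrix -/
private theorem Fl_min (A : Matrix (Fin 3) (Fin 3) ℝ) (hA : A.PosDef) :
    ∃ U : Matrix (Fin 3) (Fin 3) ℤ, (U.det = 1 ∨ U.det = -1) ∧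
      ∀ V : Matrix (Fin 3) (Fin 3) ℤ, (V.det = 1 ∨ V.det = -1) →
        (FlG A U).trace ≤ (FlG A V).trace := by
  obtain ⟨κ, hκ, hlow⟩ := Fl_lower A hA
  set C : ℝ := (FlG A 1).trace with hC
  set S : Set (Matrix (Fin 3) (Fin 3) ℤ) :=
    {U | (U.det = 1 ∨ U.det = -1) ∧ (FlG A U).trace ≤ C} with hS
  have hfin : S.Finite := by
    set M : ℤ := ⌈C / κ⌉ with hM
    refine Set.Finite.subset (Set.Finite.pi' fun _ : Fin 3 => Set.Finite.pi' fun _ : Fin 3 =>
      Set.finite_Icc (-M) M) ?_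
    rintro U ⟨-, hU⟩ k i
    have hq : ∀ j : Fin 3, 0 ≤ FlG A U j j := by
      intro j
      rw [FlG_diag]
      exact le_trans (by positivity) (hlow _)
    have hle : FlG A U i i ≤ C := by
      refine le_trans ?_ hU
      rw [Matrix.trace, Fin.sum_univ_three]
      simp only [Matrix.diag_apply]
      have h0 := hq 0
      have h1 := hq 1
      have h2 := hq 2
      fin_cases i <;> simp <;> linarith
    rw [FlG_diag] at hle
    have h1 := le_trans (hlow fun k => (U k i : ℝ)) hle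
    have h2 : |(U k i : ℝ)| ≤ ‖fun k => (U k i : ℝ)‖ := by
      have := norm_le_pi_norm (fun k => (U k i : ℝ)) k
      simpa using this
    have h3 : |(U k i : ℝ)| ^ 2 ≤ C / κ := by
      rw [le_div_iff₀ hκ]
      calc |(U k i : ℝ)| ^ 2 * κ ≤ ‖fun k => (U k i : ℝ)‖ ^ 2 * κ := by gcongr
        _ ≤ C := by rw [mul_comm]; exact h1
    have h4 : (|U k i| : ℤ) ≤ M := by
      have h5 : ((|U k i| : ℤ) : ℝ) ≤ C / κ := by
        push_cast
        refine le_trans ?_ h3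
        rcases eq_or_ne (U k i) 0 with h0 | h0
        · rw [h0]; simp
        · have h6 : (1 : ℝ) ≤ |(U k i : ℝ)| := by
            have : (1 : ℤ) ≤ |U k i| := Int.one_le_abs h0
            exact_mod_cast this
          nlinarith
      have := h5.trans (Int.le_ceil _)
      exact_mod_cast this
    exact abs_le.1 h4
  have hne : S.Nonempty := ⟨1, Or.inl Matrix.det_one, le_rfl⟩
  obtain ⟨U, hU, hmin⟩ := Set.exists_min_image S (fun U => (FlG A U).trace) hfin hne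
  refine ⟨U, hU.1, fun V hV => ?_⟩
  by_cases h : (FlG A V).trace ≤ C
  · exact hmin V ⟨hV, h⟩
  · exact hU.2.trans (not_le.1 h).le

/-- Gauss: the Hermite constant in dimension three. -/
theorem hermite_three (A : Matrix (Fin 3) (Fin 3) ℝ) (hA : A.PosDef) :
    ∃ n : Fin 3 → ℤ, n ≠ 0 ∧
      ((fun i => (n i : ℝ)) ⬝ᵥ (A *ᵥ fun i => (n i : ℝ))) ^ 3 ≤ 2 * A.det := by
  obtain ⟨U, hU, hmin⟩ := Fl_min A hA
  have hUne : U.det ≠ 0 := by rcases hU with h | h <;> rw [h] <;> norm_num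
  have hcol : ∀ i : Fin 3, (fun k => U k i) ≠ 0 := by
    intro i h
    apply hUne
    exact Matrix.det_eq_zero_of_column_eq_zero i fun k => congrFun h k
  have hcolR : ∀ i : Fin 3, (fun k => (U k i : ℝ)) ≠ 0 := by
    intro i h
    apply hcol i
    funext k
    have := congrFun h k
    simpa using this
  have hpos : ∀ i : Fin 3, 0 < FlG A U i i := by
    intro i
    rw [FlG_diag]
    have := hA.dotProduct_mulVec_pos (hcolR i)
    simpa using this
  have hE : ∀ E : Matrix (Fin 3) (Fin 3) ℤ, E.det = 1 → (FlG A U).trace ≤ (FlG A (U * E)).trace := by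
    intro E hE
    refine hmin _ ?_
    rw [Matrix.det_mul, hE, mul_one]
    exact hU
  have hs := FlG_symm A hA U
  have s10 := hs 1 0
  have s20 := hs 2 0
  have s21 := hs 2 1
  have H1 : ∀ x y : ℤ, 0 ≤ FlG A U 1 1 * x ^ 2 + FlG A U 2 2 * y ^ 2 + 2 * FlG A U 0 1 * x +
      2 * FlG A U 0 2 * y + 2 * FlG A U 1 2 * x * y := by
    intro x y
    have := hE !![1, 0, 0; x, 1, 0; y, 0, 1] (by simp [Matrix.det_fin_three])
    rw [FlG_mul] at this
    simp [Matrix.trace, Matrix.diag, Matrix.mul_apply, Fin.sum_univ_three] at this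
    rw [s10, s20, s21] at this
    linarith
  have H2 : ∀ x y : ℤ, 0 ≤ FlG A U 0 0 * x ^ 2 + FlG A U 2 2 * y ^ 2 + 2 * FlG A U 0 1 * x +
      2 * FlG A U 1 2 * y + 2 * FlG A U 0 2 * x * y := by
    intro x y
    have := hE !![1, x, 0; 0, 1, 0; 0, y, 1] (by simp [Matrix.det_fin_three])
    rw [FlG_mul] at this
    simp [Matrix.trace, Matrix.diag, Matrix.mul_apply, Fin.sum_univ_three] at this
    rw [s10, s20, s21] at this
    linarith
  have H3 : ∀ x y : ℤ, 0 ≤ FlG A U 0 0 * x ^ 2 + FlG A U 1 1 * y ^ 2 + 2 * FlG A U 0 2 * x +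
      2 * FlG A U 1 2 * y + 2 * FlG A U 0 1 * x * y := by
    intro x y
    have := hE !![1, 0, x; 0, 1, y; 0, 0, 1] (by simp [Matrix.det_fin_three])
    rw [FlG_mul] at this
    simp [Matrix.trace, Matrix.diag, Matrix.mul_apply, Fin.sum_univ_three] at this
    rw [s10, s20, s21] at this
    linarith
  have halg := Fl_alg (hpos 0) (hpos 1) (hpos 2) H1 H2 H3
  have hdet : (FlG A U).det = FlG A U 0 0 * FlG A U 1 1 * FlG A U 2 2 +
      2 * (FlG A U 1 2 * FlG A U 0 2 * FlG A U 0 1) - FlG A U 0 0 * FlG A U 1 2 ^ 2 -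
      FlG A U 1 1 * FlG A U 0 2 ^ 2 - FlG A U 2 2 * FlG A U 0 1 ^ 2 := by
    rw [Matrix.det_fin_three, s10, s20, s21]
    ring
  rw [← hdet, FlG_det A U hU] at halg
  -- the smallest diagonal entry
  have hfinal : ∀ i : Fin 3, FlG A U i i ≤ FlG A U 0 0 → FlG A U i i ≤ FlG A U 1 1 →
      FlG A U i i ≤ FlG A U 2 2 → ∃ n : Fin 3 → ℤ, n ≠ 0 ∧
      ((fun i => (n i : ℝ)) ⬝ᵥ (A *ᵥ fun i => (n i : ℝ))) ^ 3 ≤ 2 * A.det := by
    intro i h0 h1 h2
    refine ⟨fun k => U k i, hcol i, ?_⟩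
    rw [← FlG_diag]
    refine le_trans ?_ halg
    have hp := (hpos i).le
    have hp0 := (hpos 0).le
    have hp1 := (hpos 1).le
    calc FlG A U i i ^ 3 = FlG A U i i * FlG A U i i * FlG A U i i := by ring
      _ ≤ FlG A U 0 0 * FlG A U 1 1 * FlG A U 2 2 := by gcongr
  rcases le_total (FlG A U 0 0) (FlG A U 1 1) with h | h
  · rcases le_total (FlG A U 0 0) (FlG A U 2 2) with h' | h'
    · exact hfinal 0 le_rfl h h'
    · exact hfinal 2 h' (h'.trans h) le_rfl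
  · rcases le_total (FlG A U 1 1) (FlG A U 2 2) with h' | h'
    · exact hfinal 1 h le_rfl h'
    · exact hfinal 2 (h'.trans h) h' le_rfl

/-- flat metrics -/
theorem flat_bound (G : TorusMetric 3) (hG : ∀ x, G.g x = G.g 0) :
    sys G ^ 3 ≤ Real.sqrt 2 * vol G := by
  obtain ⟨n, hn, hn3⟩ := hermite_three (G.g 0) (G.posDef 0)
  set q : ℝ := (fun i => (n i : ℝ)) ⬝ᵥ (G.g 0 *ᵥ fun i => (n i : ℝ)) with hq
  have hnR : (fun i => (n i : ℝ)) ≠ 0 := by
    intro h
    apply hn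
    funext k
    have := congrFun h k
    simpa using this
  have hq0 : 0 < q := by
    have := (G.posDef 0).dotProduct_mulVec_pos hnR
    simpa using this
  have hvol : vol G = Real.sqrt (G.g 0).det := by
    unfold vol
    rw [setIntegral_congr_fun measurableSet_Icc (g := fun _ => Real.sqrt (G.g 0).det)
      (fun x _ => by simp only; rw [hG x])]
    rw [setIntegral_const, smul_eq_mul]
    have : (volume : Measure (Fin 3 → ℝ)).real (Set.Icc 0 1) = 1 := by
      rw [Measure.real, Real.volume_Icc_pi]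
      simp
    rw [this, one_mul]
  have hlen : len G (fun t i => t * n i) = Real.sqrt q := by
    unfold len
    have hd : ∀ t : ℝ, deriv (fun (t : ℝ) (i : Fin 3) => t * (n i : ℝ)) t = fun i => (n i : ℝ) := by
      intro t
      rw [deriv_pi (fun i => by fun_prop)]
      funext i
      simp
    simp only [hd, hG]
    rw [← hq]
    simp
  have hsys : sys G ≤ Real.sqrt q := by
    unfold sys
    refine csInf_le ⟨0, ?_⟩ ⟨fun t i => t * n i, n, ?_, hn, ?_, hlen.symm⟩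
    · rintro ℓ ⟨γ, m, -, -, -, rfl⟩
      exact intervalIntegral.integral_nonneg zero_le_one fun t _ => Real.sqrt_nonneg _
    · fun_prop
    · intro i; simp
  have hsys0 : 0 ≤ sys G := by
    unfold sys
    refine Real.sInf_nonneg ?_
    rintro ℓ ⟨γ, m, -, -, -, rfl⟩
    exact intervalIntegral.integral_nonneg zero_le_one fun t _ => Real.sqrt_nonneg _
  have hdet0 : 0 ≤ (G.g 0).det := (G.posDef 0).det_pos.le
  calc sys G ^ 3 ≤ Real.sqrt q ^ 3 := pow_le_pow_left₀ hsys0 hsys 3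
    _ = Real.sqrt (q ^ 3) := by
        symm
        rw [Real.sqrt_eq_iff_mul_self_eq (by positivity) (by positivity)]
        have := Real.sq_sqrt hq0.le
        calc q ^ 3 = (Real.sqrt q ^ 2) ^ 3 := by rw [this]
          _ = Real.sqrt q ^ 3 * Real.sqrt q ^ 3 := by ring
    _ ≤ Real.sqrt (2 * (G.g 0).det) := Real.sqrt_le_sqrt hn3
    _ = Real.sqrt 2 * vol G := by rw [Real.sqrt_mul (by norm_num), hvol]

end Pool.Agent.Lib.MP_c3a607_gt
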