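import Pool.Agent.Lib.MP_c3a607_gt.Cross
import Pool.Agent.Lib.MP_c3a607_gt.Anti
import Pool.Agent.Lib.MP_c3a607_gt.Data
import Pool.Agent.Lib.MP_c3a607_gt.Flat

set_option autoImplicit false

open scoped ContDiff Matrix
open MeasureTheory

namespace Pool.Agent.Lib.MP_c3a607_gt

theorem len_nonneg {d : ℕ} (G : TorusMetric d) (γ : ℝ → Fin d → ℝ) : 0 ≤ len G γ :=
  intervalIntegral.integral_nonneg zero_le_one fun _ _ => Real.sqrt_nonneg _

theorem vol_nonneg {d : ℕ} (G : TorusMetric d) : 0 ≤ vol G :=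
  integral_nonneg fun _ => Real.sqrt_nonneg _

theorem sys_nonneg {d : ℕ} (G : TorusMetric d) : 0 ≤ sys G := by
  refine Real.sInf_nonneg ?_
  rintro _ ⟨γ, n, _, _, _, rfl⟩
  exact len_nonneg G γ

theorem exists_curve {d : ℕ} (n : Fin d → ℤ) : ∃ γ : ℝ → Fin d → ℝ, ContDiff ℝ 1 γ ∧
    ∀ i, γ 1 i = γ 0 i + n i := by
  refine ⟨fun t i => t * n i, ?_, fun i => by simp⟩
  exact contDiff_pi.2 fun i => contDiff_id.mul contDiff_const

theorem one_le_sys {G : TorusMetric 3} (h : ∀ (γ : ℝ → Fin 3 → ℝ) (n : Fin 3 → ℤ),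
    ContDiff ℝ 1 γ → n ≠ 0 → (∀ i, γ 1 i = γ 0 i + n i) → 1 ≤ len G γ) : 1 ≤ sys G := by
  refine le_csInf ?_ ?_
  · obtain ⟨γ, h1, h2⟩ := exists_curve (fun _ : Fin 3 => (1 : ℤ))
    exact ⟨_, γ, _, h1, fun h0 => by simpa using congrFun h0 0, h2, rfl⟩
  · rintro _ ⟨γ, n, h1, h2, h3, rfl⟩
    exact h γ n h1 h2 h3

theorem exists_good : ∃ G : TorusMetric 3, 1 ≤ sys G ∧ vol G < 0.705 := by
  obtain ⟨D, p, hp0, hp1, hal, hI1, hI2, hI3, hV⟩ := exists_dat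
  refine ⟨ex D, one_le_sys fun γ n hγ hne hn => ?_, by rw [vol_ex]; exact hV⟩
  rcases lt_or_ge |n 0| 2 with h2 | h2
  · rcases eq_or_ne (n 0) 0 with h0 | h0
    · rcases Int.even_or_odd (n 1 + n 2) with he | ho
      · exact even_loop hγ hn h0 hne he
      · exact anti hγ hn h0 ho hal
    · have h1 : n 0 = 1 ∨ n 0 = -1 := by
        rw [abs_lt] at h2
        omega
      rcases Int.even_or_odd (n 1 - n 2) with he | ho
      · refine cross_p hγ hn h1 ?_ hp0 hp1 hI1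
        obtain ⟨k, hk⟩ := he
        rw [Int.odd_iff]
        rcases h1 with h1 | h1 <;> omega
      · exact cross_m hγ hn h1 ho hp0 hp1 hI2
  · exact far hγ hn h2 hI3

theorem minSys_lt : minSys 3 < 0.705 := by
  obtain ⟨G, h1, h2⟩ := exists_good
  have h3 : 1 ≤ sys G ^ 3 := one_le_pow₀ h1
  refine lt_of_le_of_lt (csInf_le ⟨0, ?_⟩ ⟨G, rfl⟩) ?_
  · rintro _ ⟨G', rfl⟩
    exact div_nonneg (vol_nonneg G') (pow_nonneg (sys_nonneg G') 3)
  · refine lt_of_le_of_lt (div_le_self (vol_nonneg G) h3) h2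

end Pool.Agent.Lib.MP_c3a607_gt
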